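import Mathlib
set_option autoImplicit false
open Filter Topology

namespace Pool.Agent.WRN

open CompactlySupported MeasureTheory

namespace MazurAux

variable {K : Type} [TopologicalSpace K] [CompactSpace K] [T2Space K]

/-- the convex set of all convex combinations of the `g k`, `k ≥ N` -/
def comb (g : ℕ → C(K, ℝ)) (N : ℕ) : Set C(K, ℝ) :=
  {f | ∃ w : ℕ →₀ ℝ, (∀ k, 0 ≤ w k) ∧ (w.sum fun _ r => r) = 1 ∧ (∀ k ∈ w.support, N ≤ k) ∧
    f = w.sum fun k r => r • g k}

lemma convex_comb (g : ℕ → C(K, ℝ)) (N : ℕ) : Convex ℝ (comb g N) := by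
  rintro f₁ ⟨w₁, h₁, s₁, n₁, rfl⟩ f₂ ⟨w₂, h₂, s₂, n₂, rfl⟩ a b ha hb hab
  refine ⟨a • w₁ + b • w₂, ?_, ?_, ?_, ?_⟩
  · intro k
    simp only [Finsupp.add_apply, Finsupp.smul_apply, smul_eq_mul]
    exact add_nonneg (mul_nonneg ha (h₁ k)) (mul_nonneg hb (h₂ k))
  · rw [Finsupp.sum_add_index' (by simp) (by simp), Finsupp.sum_smul_index' (by simp),
      Finsupp.sum_smul_index' (by simp)]
    simp only [smul_eq_mul]
    rw [← Finsupp.mul_sum, ← Finsupp.mul_sum, s₁, s₂, mul_one, mul_one, hab]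
  · intro k hk
    have hk' := Finsupp.support_add hk
    rcases Finset.mem_union.1 hk' with h | h
    · exact n₁ k (Finsupp.support_smul h)
    · exact n₂ k (Finsupp.support_smul h)
  · rw [Finsupp.sum_add_index' (by simp) (by intros; rw [add_smul]),
      Finsupp.sum_smul_index' (by simp), Finsupp.sum_smul_index' (by simp)]
    simp only [smul_eq_mul, mul_smul]
    rw [← Finsupp.smul_sum, ← Finsupp.smul_sum]

lemma mem_comb (g : ℕ → C(K, ℝ)) {N k : ℕ} (hk : N ≤ k) : g k ∈ comb g N := by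
  refine ⟨Finsupp.single k 1, ?_, ?_, ?_, ?_⟩
  · intro j
    by_cases h : k = j
    · subst h; simp
    · rw [Finsupp.single_apply, if_neg h]
  · simp
  · intro j hj
    have := Finsupp.support_single_subset hj
    rw [Finset.mem_singleton] at this
    rw [this]; exact hk
  · simp

lemma isOpen_lt (ε : ℝ) : IsOpen {f : C(K, ℝ) | ∀ y, f y < ε} := by
  have h := ContinuousMap.isOpen_setOfPred_mapsTo (X := K) (Y := ℝ) isCompact_univ
    (isOpen_Iio (a := ε))
  convert h using 1
  ext f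
  simp [Set.MapsTo]

lemma convex_lt (ε : ℝ) : Convex ℝ {f : C(K, ℝ) | ∀ y, f y < ε} := by
  intro f hf g hg a b ha hb hab y
  have h1 := hf y
  have h2 := hg y
  simp only [ContinuousMap.coe_add, ContinuousMap.coe_smul, Pi.add_apply, Pi.smul_apply,
    smul_eq_mul]
  have e : ε = a * ε + b * ε := by rw [← add_mul, hab, one_mul]
  rcases eq_or_lt_of_le ha with h | h
  · rw [← h] at hab ⊢
    have : b = 1 := by linarith
    rw [this]; linarith
  · nlinarith

/-- the functional on `C_c(K)` -/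
noncomputable def func (L : C(K, ℝ) →L[ℝ] ℝ) (hL : ∀ g : C(K, ℝ), (∀ y, 0 ≤ g y) → 0 ≤ L g) :
    C_c(K, ℝ) →ₚ[ℝ] ℝ :=
  PositiveLinearMap.mk₀
    { toFun := fun f => L f.toContinuousMap
      map_add' := fun f g => by
        rw [← map_add]; rfl
      map_smul' := fun c f => by
        simp only [RingHom.id_apply]
        rw [← map_smul]; rfl }
    (fun f hf => hL _ (fun y => hf y))

lemma tendsto_of_positive (L : C(K, ℝ) →L[ℝ] ℝ)
    (hL : ∀ g : C(K, ℝ), (∀ y, 0 ≤ g y) → 0 ≤ L g) (g : ℕ → C(K, ℝ)) (M : ℝ)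
    (hb : ∀ n y, |g n y| ≤ M) (h0 : ∀ y, Tendsto (fun n => g n y) atTop (𝓝 0)) :
    Tendsto (fun n => L (g n)) atTop (𝓝 0) := by
  letI : MeasurableSpace K := borel K
  haveI : BorelSpace K := ⟨rfl⟩
  set μ := RealRMK.rieszMeasure (func L hL) with hμ
  haveI : IsFiniteMeasure μ := ⟨by
    have := (RealRMK.regular_rieszMeasure (func L hL)).toIsFiniteMeasureOnCompacts
    exact isCompact_univ.measure_lt_top⟩
  have hint : ∀ f : C(K, ℝ), L f = ∫ x, f x ∂μ := by
    intro f
    let f' : C_c(K, ℝ) := ⟨f, HasCompactSupport.of_compactSpace f⟩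
    have := RealRMK.integral_rieszMeasure (func L hL) f'
    exact this.symm
  have h1 : Tendsto (fun n => ∫ x, g n x ∂μ) atTop (𝓝 (∫ _, (0 : ℝ) ∂μ)) := by
    refine tendsto_integral_of_dominated_convergence (fun _ => M) ?_ ?_ ?_ ?_
    · intro n
      exact (g n).continuous.aestronglyMeasurable
    · exact integrable_const M
    · intro n
      exact Eventually.of_forall fun x => by rw [Real.norm_eq_abs]; exact hb n x
    · exact Eventually.of_forall h0
  simp only [integral_zero] at h1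
  simp only [hint]
  exact h1

end MazurAux

open MazurAux in
theorem mazur {K : Type} [TopologicalSpace K] [CompactSpace K] [T2Space K] (h : ℕ → C(K, ℝ)) (M : ℝ)
    (hb : ∀ n y, |h n y| ≤ M) (h0 : ∀ y, Tendsto (fun n => h n y) atTop (𝓝 0)) (N : ℕ) (ε : ℝ)
    (hε : 0 < ε) :
    ∃ w : ℕ →₀ ℝ, (∀ k, 0 ≤ w k) ∧ (w.sum fun _ r => r) = 1 ∧ (∀ k ∈ w.support, N ≤ k) ∧
      ∀ y, |w.sum fun k r => r * h k y| ≤ ε := by
  let g : ℕ → C(K, ℝ) := fun k => |h k|
  have hg : ∀ k y, g k y = |h k y| := fun k y => rfl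
  by_cases hd : Disjoint {f : C(K, ℝ) | ∀ y, f y < ε} (comb g N)
  · exfalso
    obtain ⟨L, u, h1, h2⟩ := geometric_hahn_banach_open (convex_lt ε) (isOpen_lt ε)
      (convex_comb g N) hd
    have hu : 0 < u := by
      have := h1 0 (fun y => by simpa using hε)
      simpa using this
    have hL : ∀ f : C(K, ℝ), (∀ y, 0 ≤ f y) → 0 ≤ L f := by
      intro f hf
      by_contra hneg
      push Not at hneg
      obtain ⟨n, hn⟩ := exists_nat_gt (u / (-L f))
      have h3 := h1 (-(n : ℝ) • f) (fun y => by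
        simp only [ContinuousMap.coe_smul, Pi.smul_apply, smul_eq_mul]
        have := mul_nonneg (Nat.cast_nonneg (α := ℝ) n) (hf y)
        linarith)
      rw [map_smul, smul_eq_mul] at h3
      rw [div_lt_iff₀ (by linarith)] at hn
      linarith
    have h4 : Tendsto (fun n => L (g n)) atTop (𝓝 0) := by
      refine tendsto_of_positive L hL g M ?_ ?_
      · intro n y
        rw [hg, abs_abs]
        exact hb n y
      · intro y
        have := (h0 y).abs
        simpa [hg] using this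
    have h5 := (h4.eventually (gt_mem_nhds hu)).and (eventually_ge_atTop N)
    obtain ⟨n, hn1, hn2⟩ := h5.exists
    have := h2 _ (mem_comb g hn2)
    linarith
  · rw [Set.not_disjoint_iff] at hd
    obtain ⟨f, hf1, w, hw0, hw1, hwN, rfl⟩ := hd
    refine ⟨w, hw0, hw1, hwN, fun y => ?_⟩
    have h1 := hf1 y
    have h2 : (w.sum fun k r => r • g k) y = w.sum fun k r => r * |h k y| := by
      rw [Finsupp.sum, Finsupp.sum, ContinuousMap.sum_apply]
      rfl
    rw [h2] at h1
    refine le_trans ?_ h1.le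
    rw [Finsupp.sum, Finsupp.sum]
    refine (Finset.abs_sum_le_sum_abs _ _).trans (Finset.sum_le_sum fun k _ => ?_)
    rw [abs_mul, abs_of_nonneg (hw0 k)]

end Pool.Agent.WRN
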