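import Mathlib
import Pool.Agent.WRN.Mazur
set_option autoImplicit false
open Filter Topology

namespace Pool.Agent.WRN

/-- bounded sequence equivalent to the unit vector basis of l1 (verbatim from S04029). -/
def HasL1 (E : Type) [NormedAddCommGroup E] [NormedSpace ℝ E] : Prop :=
  ∃ (x : ℕ → E) (M : ℝ) (δ : ℝ), (∀ n, ‖x n‖ ≤ M) ∧ 0 < δ ∧
    ∀ (n : ℕ) (a : ℕ → ℝ),
      δ * ∑ i ∈ Finset.range n, |a i| ≤ ‖∑ i ∈ Finset.range n, a i • x i‖

namespace DFJPaux

/-! #### abstract part -/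

section Abs

variable {V : Type} [AddCommGroup V] [Module ℝ V]

/-- the n-th interpolation seminorm -/
noncomputable def pn (N J : Seminorm ℝ V) (n : ℕ) : Seminorm ℝ V :=
  (((1 / 2 : NNReal) ^ n) • N) ⊓ (((2 : NNReal) ^ n) • J)

theorem pn_le_left (N J : Seminorm ℝ V) (n : ℕ) (v : V) : pn N J n v ≤ (1 / 2) ^ n * N v := by
  have h : pn N J n ≤ ((1 / 2 : NNReal) ^ n) • N := inf_le_left
  have h2 := h v
  simpa [smul_apply, NNReal.smul_def] using h2

theorem pn_le_right (N J : Seminorm ℝ V) (n : ℕ) (v : V) : pn N J n v ≤ 2 ^ n * J v := by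
  have h : pn N J n ≤ ((2 : NNReal) ^ n) • J := inf_le_right
  have h2 := h v
  simpa [smul_apply, NNReal.smul_def] using h2

theorem pn_split (N J : Seminorm ℝ V) (n : ℕ) (v : V) (c : ℝ) (h : pn N J n v < c) :
    ∃ u : V, (1 / 2) ^ n * N u ≤ c ∧ 2 ^ n * J (v - u) ≤ c := by
  rw [pn, Seminorm.inf_apply] at h
  obtain ⟨u, hu⟩ := exists_lt_of_ciInf_lt h
  refine ⟨u, ?_, ?_⟩
  · have h1 : 0 ≤ (((2 : NNReal) ^ n) • J) (v - u) := apply_nonneg _ _
    have h2 : (((1 / 2 : NNReal) ^ n) • N) u ≤ c := by linarith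
    simpa [smul_apply, NNReal.smul_def] using h2
  · have h1 : 0 ≤ (((1 / 2 : NNReal) ^ n) • N) u := apply_nonneg _ _
    have h2 : (((2 : NNReal) ^ n) • J) (v - u) ≤ c := by linarith
    simpa [smul_apply, NNReal.smul_def] using h2

theorem pn_le_N (N J : Seminorm ℝ V) (n : ℕ) (v : V) : pn N J n v ≤ N v := by
  refine (pn_le_left N J n v).trans ?_
  have h1 : ((1 : ℝ) / 2) ^ n ≤ 1 := pow_le_one₀ (by norm_num) (by norm_num)
  have h2 : 0 ≤ N v := apply_nonneg _ _
  nlinarith

theorem pn_bdd (N J : Seminorm ℝ V) (v : V) : BddAbove (Set.range fun n => pn N J n v) :=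
  ⟨N v, by rintro _ ⟨n, rfl⟩; exact pn_le_N N J n v⟩

/-- the sup seminorm -/
noncomputable def qn (N J : Seminorm ℝ V) : Seminorm ℝ V :=
  Seminorm.of (fun v => ⨆ n, pn N J n v)
    (by
      intro x y
      refine ciSup_le fun n => ?_
      refine (map_add_le_add (pn N J n) x y).trans (add_le_add ?_ ?_)
      · exact le_ciSup (pn_bdd N J x) n
      · exact le_ciSup (pn_bdd N J y) n)
    (by
      intro a x
      simp only [map_smul_eq_mul]
      rw [Real.mul_iSup_of_nonneg (norm_nonneg a)])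

theorem qn_apply (N J : Seminorm ℝ V) (v : V) : qn N J v = ⨆ n, pn N J n v := rfl

theorem pn_le_qn (N J : Seminorm ℝ V) (n : ℕ) (v : V) : pn N J n v ≤ qn N J v := by
  rw [qn_apply]
  exact le_ciSup (pn_bdd N J v) n

theorem qn_le (N J : Seminorm ℝ V) (v : V) (c : ℝ) (h : ∀ n, pn N J n v ≤ c) : qn N J v ≤ c := by
  rw [qn_apply]
  exact ciSup_le h

theorem sem_lc_le (q : Seminorm ℝ V) (lam : ℕ → V) (M : ℝ) (h : ∀ k, q (lam k) ≤ M) (a : ℕ →₀ ℝ) :
    q (Finsupp.linearCombination ℝ lam a) ≤ (a.sum fun _ r => |r|) * M := by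
  rw [Finsupp.linearCombination_apply, Finsupp.sum, Finsupp.sum, Finset.sum_mul]
  refine (Finset.le_sum_of_subadditive q (map_zero q).le (map_add_le_add q) _ _).trans ?_
  refine Finset.sum_le_sum fun k _ => ?_
  rw [map_smul_eq_mul, Real.norm_eq_abs]
  exact mul_le_mul_of_nonneg_left (h k) (abs_nonneg _)

theorem abs_add_le_of_ge (a b : ℕ →₀ ℝ) (n0 : ℕ) (ha : ∀ k ∈ a.support, k < n0)
    (hb : ∀ k ∈ b.support, n0 ≤ k) :
    ((a + b).sum fun _ r => |r|) = (a.sum fun _ r => |r|) + (b.sum fun _ r => |r|) := by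
  apply Finsupp.sum_add_index_of_disjoint
  rw [Finset.disjoint_left]
  intro k h1 h2
  have := ha k h1
  have := hb k h2
  omega

/-- small combinations for l1-bounded sequences -/
def SC (N J : Seminorm ℝ V) : Prop :=
  ∀ (mu : ℕ → V) (C : ℝ), (∀ k, N (mu k) ≤ C) → ∀ (ε : ℝ), 0 < ε → ∀ n0 : ℕ,
    ∃ a : ℕ →₀ ℝ, (a.sum fun _ r => |r|) = 2 ∧ (∀ k ∈ a.support, n0 ≤ k) ∧
      J (Finsupp.linearCombination ℝ mu a) ≤ ε

theorem lemA (N J : Seminorm ℝ V) (hSC : SC N J) (lam : ℕ → V) (M : ℝ)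
    (h : ∀ k, qn N J (lam k) ≤ M) (ε : ℝ) (hε : 0 < ε) (n0 : ℕ) :
    ∃ a : ℕ →₀ ℝ, (a.sum fun _ r => |r|) = 2 ∧ (∀ k ∈ a.support, n0 ≤ k) ∧
      J (Finsupp.linearCombination ℝ lam a) ≤ ε := by
  have hM : 0 ≤ M := (apply_nonneg (qn N J) (lam 0)).trans (h 0)
  obtain ⟨n1, hn1⟩ := exists_pow_lt_of_lt_one (show 0 < ε / (4 * (M + 1)) by positivity)
    (show (1 / 2 : ℝ) < 1 by norm_num)
  have hn1' : (1 / 2 : ℝ) ^ n1 * (4 * (M + 1)) ≤ ε := by
    have := (lt_div_iff₀ (show (0 : ℝ) < 4 * (M + 1) by positivity)).1 hn1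
    exact this.le
  have hsp : ∀ k, ∃ u : V, (1 / 2) ^ n1 * N u ≤ M + 1 ∧ 2 ^ n1 * J (lam k - u) ≤ M + 1 := by
    intro k
    apply pn_split
    have := (pn_le_qn N J n1 (lam k)).trans (h k)
    linarith
  choose mu hmu1 hmu2 using hsp
  have e1 : (1 / 2 : ℝ) ^ n1 * 2 ^ n1 = 1 := by
    rw [← mul_pow]; norm_num
  have hp : (0 : ℝ) < 2 ^ n1 := by positivity
  have hp' : (0 : ℝ) < (1 / 2) ^ n1 := by positivity
  have hN : ∀ k, N (mu k) ≤ 2 ^ n1 * (M + 1) := by
    intro k
    have := mul_le_mul_of_nonneg_left (hmu1 k) hp.le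
    calc N (mu k) = 2 ^ n1 * ((1 / 2) ^ n1 * N (mu k)) := by
          rw [← mul_assoc, mul_comm (2 ^ n1 : ℝ), e1, one_mul]
      _ ≤ _ := this
  have hJ : ∀ k, J ((fun k => lam k - mu k) k) ≤ (1 / 2) ^ n1 * (M + 1) := by
    intro k
    have := mul_le_mul_of_nonneg_left (hmu2 k) hp'.le
    calc J (lam k - mu k) = (1 / 2) ^ n1 * (2 ^ n1 * J (lam k - mu k)) := by
          rw [← mul_assoc, e1, one_mul]
      _ ≤ _ := this
  obtain ⟨a, ha1, ha2, ha3⟩ := hSC mu _ hN (ε / 2) (by positivity) n0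
  refine ⟨a, ha1, ha2, ?_⟩
  have hs := sem_lc_le J (fun k => lam k - mu k) _ hJ a
  rw [ha1] at hs
  have e2 : Finsupp.linearCombination ℝ lam a = Finsupp.linearCombination ℝ mu a +
      Finsupp.linearCombination ℝ (fun k => lam k - mu k) a := by
    simp only [Finsupp.linearCombination_apply, Finsupp.sum]
    rw [← Finset.sum_add_distrib]
    refine Finset.sum_congr rfl fun k _ => ?_
    rw [← smul_add]
    congr 1
    abel
  rw [e2]
  refine (map_add_le_add J _ _).trans ?_
  nlinarith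

theorem lemB (N J : Seminorm ℝ V) (hSC : SC N J) (lam : ℕ → V) (M : ℝ)
    (h : ∀ k, qn N J (lam k) ≤ M) (m : ℕ) :
    ∃ a : ℕ →₀ ℝ, (a.sum fun _ r => |r|) = 2 * m ∧
      qn N J (Finsupp.linearCombination ℝ lam a) ≤ 2 * M + 1 - (1 / 2) ^ m := by
  have hM : 0 ≤ M := (apply_nonneg (qn N J) (lam 0)).trans (h 0)
  induction m with
  | zero =>
    refine ⟨0, by simp, ?_⟩
    simp only [map_zero, pow_zero]
    linarith
  | succ m ih =>
    obtain ⟨a, ha1, ha2⟩ := ih
    set u := Finsupp.linearCombination ℝ lam a with hu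
    have hNu : 0 ≤ N u := apply_nonneg _ _
    obtain ⟨n1, hn1⟩ := exists_pow_lt_of_lt_one
      (show 0 < (1 / 2 : ℝ) ^ (m + 1) / (N u + 1) by positivity)
      (show (1 / 2 : ℝ) < 1 by norm_num)
    have hn1' : (1 / 2 : ℝ) ^ n1 * (N u + 1) ≤ (1 / 2) ^ (m + 1) := by
      have := (lt_div_iff₀ (show (0 : ℝ) < N u + 1 by positivity)).1 hn1
      exact this.le
    obtain ⟨n0, hn0⟩ : ∃ n0, ∀ k ∈ a.support, k < n0 :=
      ⟨a.support.sup id + 1, fun k hk => Nat.lt_succ_of_le (Finset.le_sup (f := id) hk)⟩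
    obtain ⟨b, hb1, hb2, hb3⟩ := lemA N J hSC lam M h ((1 / 2) ^ (n1 + m + 1)) (by positivity) n0
    set w := Finsupp.linearCombination ℝ lam b with hw
    have hqw : qn N J w ≤ 2 * M := by
      have := sem_lc_le (qn N J) lam M h b
      rw [hb1] at this
      exact this
    refine ⟨a + b, ?_, ?_⟩
    · rw [abs_add_le_of_ge a b n0 hn0 hb2, ha1, hb1]
      push_cast
      ring
    · rw [map_add, ← hu, ← hw]
      apply qn_le
      intro n
      refine (map_add_le_add (pn N J n) u w).trans ?_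
      have e1 : (1 / 2 : ℝ) ^ m = 2 * (1 / 2) ^ (m + 1) := by
        rw [pow_succ]; ring
      rcases lt_or_ge n n1 with hlt | hge
      · have h1 : pn N J n u ≤ 2 * M + 1 - (1 / 2) ^ m := (pn_le_qn N J n u).trans ha2
        have h2 : pn N J n w ≤ (1 / 2) ^ (m + 1) := by
          refine (pn_le_right N J n w).trans ?_
          have h3 : (2 : ℝ) ^ n ≤ 2 ^ n1 := pow_le_pow_right₀ (by norm_num) hlt.le
          calc (2 : ℝ) ^ n * J w ≤ 2 ^ n1 * (1 / 2) ^ (n1 + m + 1) :=
                mul_le_mul h3 hb3 (apply_nonneg _ _) (by positivity)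
            _ = (1 / 2) ^ (m + 1) := by
                rw [add_assoc, pow_add, ← mul_assoc, ← mul_pow]
                norm_num
        linarith
      · have h1 : pn N J n u ≤ (1 / 2) ^ (m + 1) := by
          refine (pn_le_left N J n u).trans ?_
          have h3 : (1 / 2 : ℝ) ^ n ≤ (1 / 2) ^ n1 :=
            pow_le_pow_of_le_one (by norm_num) (by norm_num) hge
          have h4 : (1 / 2 : ℝ) ^ n * N u ≤ (1 / 2) ^ n1 * (N u + 1) :=
            mul_le_mul h3 (by linarith) hNu (by positivity)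
          linarith
        have h2 : pn N J n w ≤ 2 * M := (pn_le_qn N J n w).trans hqw
        have h3 : (1 / 2 : ℝ) ^ m ≤ 1 := pow_le_one₀ (by norm_num) (by norm_num)
        linarith

end Abs

/-! #### concrete part -/

section Conc

variable {K T : Type}

/-- the l1 norm -/
noncomputable def n1 (T : Type) : Seminorm ℝ (T →₀ ℝ) :=
  Seminorm.of (fun v => v.sum fun _ r => |r|)
    (by
      classical
      intro x y
      rw [Finsupp.sum_of_support_subset (x + y) Finsupp.support_add _ (by simp),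
        Finsupp.sum_of_support_subset x (Finset.subset_union_left (s₂ := y.support)) _ (by simp),
        Finsupp.sum_of_support_subset y (Finset.subset_union_right (s₁ := x.support)) _ (by simp),
        ← Finset.sum_add_distrib]
      refine Finset.sum_le_sum fun k _ => ?_
      rw [Finsupp.add_apply]
      exact abs_add_le _ _)
    (by
      intro a x
      rw [Finsupp.sum_smul_index (by simp)]
      simp only [Finsupp.sum, abs_mul, Finset.mul_sum, Real.norm_eq_abs])

theorem n1_apply (v : T →₀ ℝ) : n1 T v = v.sum fun _ r => |r| := rfl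

/-- evaluation functionals -/
noncomputable def ev (f : T → K → ℝ) (y : K) : (T →₀ ℝ) →ₗ[ℝ] ℝ :=
  Finsupp.linearCombination ℝ (fun t => f t y)

theorem ev_apply (f : T → K → ℝ) (y : K) (v : T →₀ ℝ) :
    ev f y v = v.sum fun t r => r * f t y := by
  rw [ev, Finsupp.linearCombination_apply]
  rfl

theorem abs_ev_le (f : T → K → ℝ) (hf : ∀ t y, |f t y| ≤ 1) (y : K) (v : T →₀ ℝ) :
    |ev f y v| ≤ n1 T v := by
  rw [ev_apply, n1_apply, Finsupp.sum, Finsupp.sum]
  refine (Finset.abs_sum_le_sum_abs _ _).trans ?_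
  refine Finset.sum_le_sum fun t _ => ?_
  rw [abs_mul]
  have := mul_le_mul_of_nonneg_left (hf t y) (abs_nonneg (v t))
  linarith

theorem ev_bdd (f : T → K → ℝ) (hf : ∀ t y, |f t y| ≤ 1) (v : T →₀ ℝ) :
    BddAbove (Set.range fun y => |ev f y v|) :=
  ⟨n1 T v, by rintro _ ⟨y, rfl⟩; exact abs_ev_le f hf y v⟩

/-- the sup norm of J v -/
noncomputable def jn (f : T → K → ℝ) (hf : ∀ t y, |f t y| ≤ 1) : Seminorm ℝ (T →₀ ℝ) :=
  Seminorm.of (fun v => ⨆ y, |ev f y v|)
    (by
      intro x y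
      refine Real.iSup_le (fun n => ?_) (add_nonneg (Real.iSup_nonneg fun _ => abs_nonneg _)
        (Real.iSup_nonneg fun _ => abs_nonneg _))
      rw [map_add]
      refine (abs_add_le _ _).trans (add_le_add ?_ ?_)
      · exact le_ciSup (ev_bdd f hf x) n
      · exact le_ciSup (ev_bdd f hf y) n)
    (by
      intro a x
      simp only [map_smul, smul_eq_mul, abs_mul, Real.norm_eq_abs]
      rw [Real.mul_iSup_of_nonneg (abs_nonneg a)])

theorem jn_apply (f : T → K → ℝ) (hf : ∀ t y, |f t y| ≤ 1) (v : T →₀ ℝ) :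
    jn f hf v = ⨆ y, |ev f y v| := rfl

theorem ev_le_jn (f : T → K → ℝ) (hf : ∀ t y, |f t y| ≤ 1) (y : K) (v : T →₀ ℝ) :
    |ev f y v| ≤ jn f hf v := by
  rw [jn_apply]
  exact le_ciSup (ev_bdd f hf v) y

theorem jn_le (f : T → K → ℝ) (hf : ∀ t y, |f t y| ≤ 1) (v : T →₀ ℝ) (c : ℝ) (hc : 0 ≤ c)
    (h : ∀ y, |ev f y v| ≤ c) : jn f hf v ≤ c := by
  rw [jn_apply]
  exact Real.iSup_le h hc

theorem ev_le_pn (f : T → K → ℝ) (hf : ∀ t y, |f t y| ≤ 1) (y : K) (v : T →₀ ℝ) :
    |ev f y v| ≤ pn (n1 T) (jn f hf) 0 v := by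
  rw [pn, Seminorm.inf_apply]
  refine le_ciInf fun u => ?_
  simp only [pow_zero, one_smul]
  have h1 := abs_ev_le f hf y u
  have h2 := ev_le_jn f hf y (v - u)
  have h3 : ev f y v = ev f y u + ev f y (v - u) := by rw [← map_add]; congr 1; abel
  rw [h3]
  exact (abs_add_le _ _).trans (add_le_add h1 h2)

theorem ev_le_qn (f : T → K → ℝ) (hf : ∀ t y, |f t y| ≤ 1) (y : K) (v : T →₀ ℝ) :
    |ev f y v| ≤ qn (n1 T) (jn f hf) v :=
  (ev_le_pn f hf y v).trans (pn_le_qn _ _ 0 v)

theorem sc_of_tame [TopologicalSpace K] [CompactSpace K] [T2Space K] (f : T → K → ℝ)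
    (hfc : ∀ t, Continuous (f t)) (hf : ∀ t y, |f t y| ≤ 1)
    (htame : ∀ c : ℕ → (T →₀ ℝ), (∀ n, ((c n).sum fun _ r => |r|) ≤ 1) →
      ∃ φ : ℕ → ℕ, StrictMono φ ∧
        ∀ y, ∃ l, Tendsto (fun n => (c (φ n)).sum fun t r => r * f t y) atTop (𝓝 l)) :
    SC (n1 T) (jn f hf) := by
  intro mu C hC ε hε n0
  have hC0 : 0 ≤ C := (apply_nonneg (n1 T) (mu 0)).trans (hC 0)
  have hC1 : 0 < C + 1 := by linarith
  obtain ⟨φ, hφ, hl⟩ := htame (fun k => (C + 1)⁻¹ • mu k) (by
    intro n
    change n1 T ((C + 1)⁻¹ • mu n) ≤ 1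
    rw [map_smul_eq_mul, Real.norm_eq_abs, abs_of_pos (by positivity), inv_mul_le_iff₀ hC1]
    linarith [hC n])
  have hl' : ∀ y, ∃ l, Tendsto (fun n => ev f y (mu (φ n))) atTop (𝓝 l) := by
    intro y
    obtain ⟨l, hl⟩ := hl y
    refine ⟨(C + 1) * l, ?_⟩
    have := hl.const_mul (C + 1)
    refine this.congr fun n => ?_
    rw [← ev_apply, map_smul, smul_eq_mul, ← mul_assoc, mul_inv_cancel₀ hC1.ne', one_mul]
  have hcont : ∀ v : T →₀ ℝ, Continuous fun y => ev f y v := by
    intro v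
    simp only [ev_apply, Finsupp.sum]
    exact continuous_finsetSum _ fun t _ => continuous_const.mul (hfc t)
  let d : ℕ → (T →₀ ℝ) := fun k => mu (φ (2 * k + 1)) - mu (φ (2 * k))
  let h : ℕ → C(K, ℝ) := fun k => ⟨fun y => ev f y (d k), hcont _⟩
  obtain ⟨w, hw0, hw1, hw2, hw3⟩ := mazur h (2 * C) (by
    intro n y
    change |ev f y (mu (φ (2 * n + 1)) - mu (φ (2 * n)))| ≤ 2 * C
    rw [map_sub]
    have h1 := (abs_ev_le f hf y (mu (φ (2 * n + 1)))).trans (hC _)
    have h2 := (abs_ev_le f hf y (mu (φ (2 * n)))).trans (hC _)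
    have h3 := abs_sub (ev f y (mu (φ (2 * n + 1)))) (ev f y (mu (φ (2 * n))))
    linarith) (by
    intro y
    obtain ⟨l, hl⟩ := hl' y
    have t1 : Tendsto (fun k : ℕ => 2 * k + 1) atTop atTop :=
      tendsto_atTop_mono (fun k => by simp only [id]; omega) tendsto_id
    have t2 : Tendsto (fun k : ℕ => 2 * k) atTop atTop :=
      tendsto_atTop_mono (fun k => by simp only [id]; omega) tendsto_id
    have h1 := hl.comp t1
    have h2 := hl.comp t2
    have h3 := h1.sub h2
    rw [sub_self] at h3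
    refine h3.congr fun n => ?_
    change _ = ev f y (mu (φ (2 * n + 1)) - mu (φ (2 * n)))
    rw [map_sub]
    rfl) n0 ε hε
  let f1 : ℕ → ℕ := fun k => φ (2 * k + 1)
  let f2 : ℕ → ℕ := fun k => φ (2 * k)
  have hf1 : Function.Injective f1 := fun a b hab => by
    have := hφ.injective hab
    omega
  have hf2 : Function.Injective f2 := fun a b hab => by
    have := hφ.injective hab
    omega
  let A := Finsupp.mapDomain f1 w
  let B := Finsupp.mapDomain f2 w
  have hAs : ∀ i ∈ A.support, ∃ k ∈ w.support, f1 k = i := by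
    intro i hi
    classical
    have := Finsupp.mapDomain_support hi
    simpa using this
  have hBs : ∀ i ∈ B.support, ∃ k ∈ w.support, f2 k = i := by
    intro i hi
    classical
    have := Finsupp.mapDomain_support hi
    simpa using this
  have hdis : Disjoint A.support (-B).support := by
    rw [Finsupp.support_neg, Finset.disjoint_left]
    intro i h1 h2
    obtain ⟨k, _, hk⟩ := hAs i h1
    obtain ⟨k', _, hk'⟩ := hBs i h2
    have := hφ.injective (hk.trans hk'.symm)
    omega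
  have hw1' : (w.sum fun _ r => |r|) = 1 := by
    rw [← hw1]
    refine Finset.sum_congr rfl fun k _ => abs_of_nonneg (hw0 k)
  refine ⟨A + (-B), ?_, ?_, ?_⟩
  · rw [Finsupp.sum_add_index_of_disjoint hdis, Finsupp.sum_neg_index (by simp)]
    simp only [abs_neg]
    rw [Finsupp.sum_mapDomain_index_inj hf1, Finsupp.sum_mapDomain_index_inj hf2, hw1']
    norm_num
  · intro i hi
    classical
    have := Finsupp.support_add hi
    rw [Finset.mem_union, Finsupp.support_neg] at this
    rcases this with h1 | h1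
    · obtain ⟨k, hk, hk'⟩ := hAs i h1
      have h2 := hw2 k hk
      have h3 : 2 * k + 1 ≤ φ (2 * k + 1) := hφ.le_apply
      change φ (2 * k + 1) = i at hk'
      omega
    · obtain ⟨k, hk, hk'⟩ := hBs i h1
      have h2 := hw2 k hk
      have h3 : 2 * k ≤ φ (2 * k) := hφ.le_apply
      change φ (2 * k) = i at hk'
      omega
  · refine jn_le f hf _ ε hε.le fun y => ?_
    have e1 : Finsupp.linearCombination ℝ mu (A + -B) = Finsupp.linearCombination ℝ d w := by
      rw [map_add, map_neg, Finsupp.linearCombination_mapDomain, Finsupp.linearCombination_mapDomain,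
        ← sub_eq_add_neg]
      simp only [Finsupp.linearCombination_apply, Finsupp.sum]
      rw [← Finset.sum_sub_distrib]
      refine Finset.sum_congr rfl fun k _ => ?_
      rw [← smul_sub]
      rfl
    rw [e1]
    refine le_trans (le_of_eq ?_) (hw3 y)
    congr 1
    rw [Finsupp.linearCombination_apply, Finsupp.sum, Finsupp.sum, map_sum]
    refine Finset.sum_congr rfl fun k _ => ?_
    rw [map_smul, smul_eq_mul]
    rfl

end Conc

section Cpl

variable {V : Type} [AddCommGroup V] [Module ℝ V]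

/-- type copy of V, normed by q -/
def QV (_q : Seminorm ℝ V) : Type := V

variable (q : Seminorm ℝ V)

noncomputable instance : SeminormedAddCommGroup (QV q) :=
  AddGroupSeminorm.toSeminormedAddCommGroup (E := V) q.toAddGroupSeminorm

noncomputable instance : Module ℝ (QV q) := inferInstanceAs (Module ℝ V)

noncomputable instance : NormedSpace ℝ (QV q) where
  norm_smul_le a x := (map_smul_eq_mul q a x).le

theorem no_l1 (N J : Seminorm ℝ V) (hSC : SC N J) :
    ¬ HasL1 (UniformSpace.Completion (QV (qn N J))) := by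
  rintro ⟨x, M, δ, hM, hδ, hx⟩
  have happ : ∀ k, ∃ v : QV (qn N J), ‖x k - (v : UniformSpace.Completion (QV (qn N J)))‖ ≤ δ / 2 := by
    intro k
    have hd : DenseRange (UniformSpace.Completion.coe' (α := QV (qn N J))) :=
      UniformSpace.Completion.denseRange_coe
    obtain ⟨v, hv⟩ := hd.exists_dist_lt (x k) (show 0 < δ / 2 by positivity)
    refine ⟨v, ?_⟩
    rw [dist_eq_norm] at hv
    exact hv.le
  choose lam hlam using happ
  have hb : ∀ k, qn N J (lam k) ≤ M + δ / 2 := by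
    intro k
    have h1 : ‖(lam k : UniformSpace.Completion (QV (qn N J)))‖ ≤ M + δ / 2 := by
      have e : (lam k : UniformSpace.Completion (QV (qn N J))) = x k - (x k - lam k) := by abel
      rw [e]
      exact (norm_sub_le _ _).trans (add_le_add (hM k) (hlam k))
    rw [UniformSpace.Completion.norm_coe] at h1
    exact h1
  obtain ⟨m, hm⟩ := exists_nat_gt ((2 * (M + δ / 2) + 1) / δ)
  obtain ⟨a, ha1, ha2⟩ := lemB N J hSC lam (M + δ / 2) hb m
  obtain ⟨n, hn⟩ : ∃ n, a.support ⊆ Finset.range n :=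
    ⟨a.support.sup id + 1, fun k hk =>
      Finset.mem_range.2 (Nat.lt_succ_of_le (Finset.le_sup (f := id) hk))⟩
  have h1 := hx n a
  have e1 : ∑ i ∈ Finset.range n, |a i| = 2 * m := by
    rw [← ha1]
    exact (Finsupp.sum_of_support_subset a hn (fun _ r => |r|) (by simp)).symm
  have e2 : Finsupp.linearCombination ℝ lam a = ∑ i ∈ Finset.range n, a i • lam i := by
    rw [Finsupp.linearCombination_apply]
    exact Finsupp.sum_of_support_subset a hn (fun i r => r • lam i) (by simp)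
  have h2 : ‖∑ i ∈ Finset.range n, a i • (lam i : UniformSpace.Completion (QV (qn N J)))‖ ≤
      2 * (M + δ / 2) + 1 := by
    have e3 : (∑ i ∈ Finset.range n, a i • (lam i : UniformSpace.Completion (QV (qn N J)))) =
        UniformSpace.Completion.toComplL (𝕜 := ℝ) (E := QV (qn N J))
          (∑ i ∈ Finset.range n, a i • lam i) := by
      rw [map_sum]
      refine Finset.sum_congr rfl fun i _ => ?_
      rw [map_smul]
      rfl
    rw [e3]
    change ‖((∑ i ∈ Finset.range n, a i • lam i : QV (qn N J)) :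
      UniformSpace.Completion (QV (qn N J)))‖ ≤ _
    rw [UniformSpace.Completion.norm_coe]
    have h3 : qn N J (Finsupp.linearCombination ℝ lam a) ≤ 2 * (M + δ / 2) + 1 := by
      have : (0 : ℝ) < (1 / 2) ^ m := by positivity
      refine ha2.trans ?_
      linarith
    rw [e2] at h3
    exact h3
  have h4 : ‖∑ i ∈ Finset.range n, a i • x i‖ ≤ 2 * (M + δ / 2) + 1 + δ / 2 * (2 * m) := by
    have e4 : (∑ i ∈ Finset.range n, a i • x i) =
        (∑ i ∈ Finset.range n, a i • (lam i : UniformSpace.Completion (QV (qn N J)))) +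
        ∑ i ∈ Finset.range n, a i • (x i - (lam i : UniformSpace.Completion (QV (qn N J)))) := by
      rw [← Finset.sum_add_distrib]
      refine Finset.sum_congr rfl fun i _ => ?_
      rw [← smul_add]
      congr 1
      abel
    rw [e4]
    refine (norm_add_le _ _).trans (add_le_add h2 ?_)
    refine (norm_sum_le _ _).trans ?_
    rw [← e1, Finset.mul_sum]
    refine Finset.sum_le_sum fun i _ => ?_
    rw [norm_smul, Real.norm_eq_abs, mul_comm]
    exact mul_le_mul_of_nonneg_right (hlam i) (abs_nonneg _)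
  rw [e1] at h1
  have h5 := (div_lt_iff₀ hδ).1 hm
  nlinarith

end Cpl

end DFJPaux
theorem dfjp {K T : Type} [TopologicalSpace K] [CompactSpace K] [T2Space K] (f : T → K → ℝ)
    (hfc : ∀ t, Continuous (f t)) (hf : ∀ t y, |f t y| ≤ 1)
    (hsep : ∀ y z, y ≠ z → ∃ t, f t y ≠ f t z)
    (htame : ∀ c : ℕ → (T →₀ ℝ), (∀ n, ((c n).sum fun _ r => |r|) ≤ 1) →
      ∃ φ : ℕ → ℕ, StrictMono φ ∧
        ∀ y, ∃ l, Tendsto (fun n => (c (φ n)).sum fun t r => r * f t y) atTop (𝓝 l)) :
    ∃ (E : Type) (_ : NormedAddCommGroup E) (_ : NormedSpace ℝ E) (_ : CompleteSpace E),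
      ¬ HasL1 E ∧ ∃ S : Set (WeakDual ℝ E), IsCompact S ∧ Nonempty (K ≃ₜ S) := by
  set q := DFJPaux.qn (DFJPaux.n1 T) (DFJPaux.jn f hf) with hq
  refine ⟨UniformSpace.Completion (DFJPaux.QV q), inferInstance, inferInstance, inferInstance,
    DFJPaux.no_l1 _ _ (DFJPaux.sc_of_tame f hfc hf htame), ?_⟩
  -- evaluation functionals as continuous linear maps
  let lin : K → (DFJPaux.QV q →ₗ[ℝ] ℝ) := fun y => DFJPaux.ev f y
  have hlin : ∀ y (v : DFJPaux.QV q), ‖lin y v‖ ≤ 1 * ‖v‖ := by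
    intro y v
    rw [one_mul]
    exact DFJPaux.ev_le_qn f hf y v
  let cl : K → (DFJPaux.QV q →L[ℝ] ℝ) := fun y => (lin y).mkContinuous 1 (hlin y)
  let e : DFJPaux.QV q →L[ℝ] UniformSpace.Completion (DFJPaux.QV q) := UniformSpace.Completion.toComplL
  have he : DenseRange e := UniformSpace.Completion.denseRange_coe
  have he2 : IsUniformInducing e := UniformSpace.Completion.isUniformInducing_coe _
  let Φ : K → WeakDual ℝ (UniformSpace.Completion (DFJPaux.QV q)) := fun y =>
    StrongDual.toWeakDual ((cl y).extend e)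
  have hΦ : ∀ y (v : DFJPaux.QV q), Φ y (e v) = DFJPaux.ev f y v := by
    intro y v
    change ((cl y).extend e) (e v) = _
    rw [ContinuousLinearMap.extend_eq _ he he2]
    rfl
  have hΦ1 : ∀ y (z : UniformSpace.Completion (DFJPaux.QV q)), |Φ y z| ≤ ‖z‖ := by
    intro y
    have hc : IsClosed {z : UniformSpace.Completion (DFJPaux.QV q) | |Φ y z| ≤ ‖z‖} := by
      apply isClosed_le _ continuous_norm
      have : Continuous fun z => (cl y).extend e z := ((cl y).extend e).continuous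
      exact this.abs
    intro z
    refine he.induction_on (p := fun z => |Φ y z| ≤ ‖z‖) z hc ?_
    intro v
    rw [hΦ]
    have h1 : ‖e v‖ = q v := UniformSpace.Completion.norm_coe v
    rw [h1]
    exact DFJPaux.ev_le_qn f hf y v
  have hev : ∀ v : T →₀ ℝ, Continuous fun y => DFJPaux.ev f y v := by
    intro v
    simp only [DFJPaux.ev_apply, Finsupp.sum]
    exact continuous_finsetSum _ fun t _ => continuous_const.mul (hfc t)
  have hcont : Continuous Φ := by
    apply WeakDual.continuous_of_continuous_eval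
    intro z
    apply continuous_of_uniform_approx_of_continuous
    intro u hu
    obtain ⟨ε, hε, hεu⟩ := Metric.mem_uniformity_dist.1 hu
    obtain ⟨v, hv⟩ := he.exists_dist_lt z hε
    refine ⟨fun y => DFJPaux.ev f y v, hev v, fun y => hεu ?_⟩
    have h9 : dist (Φ y z) (DFJPaux.ev f y v) = dist (Φ y z) (Φ y (e v)) :=
      congrArg (dist (Φ y z)) (hΦ y v).symm
    refine lt_of_eq_of_lt h9 ?_
    rw [Real.dist_eq, ← map_sub]
    refine (hΦ1 y _).trans_lt ?_
    rwa [dist_eq_norm] at hv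
  have hinj : Function.Injective Φ := by
    intro y z hyz
    by_contra hne
    obtain ⟨t, ht⟩ := hsep y z hne
    apply ht
    have h1 := hΦ y (Finsupp.single t 1 : T →₀ ℝ)
    have h2 := hΦ z (Finsupp.single t 1 : T →₀ ℝ)
    rw [hyz, h2] at h1
    simpa [DFJPaux.ev_apply] using h1.symm
  refine ⟨Set.range Φ, isCompact_range hcont, ⟨?_⟩⟩
  exact (hcont.isClosedEmbedding hinj).isEmbedding.toHomeomorph

end Pool.Agent.WRN
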