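import Pool.Agent.WRN.Helly
import Pool.Agent.WRN.DFJP
set_option autoImplicit false
open Filter Topology

/-!
A criterion for being a weak Radon-Nikodym compactum: continuous functions attached to the nodes of a
tree with countable levels below every point, each depending only on the node at which a point leaves it.
-/

namespace Pool.Agent.WRN

section Criterion

variable {I K T : Type} [LinearOrder I] [WellFoundedLT I]

lemma exists_first {y y' : I → Bool} (h : y ≠ y') : ∃ b, (∀ x < b, y x = y' x) ∧ y b ≠ y' b := by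
  have h2 : ∃ b, y b ≠ y' b := by
    by_contra h3
    push Not at h3
    exact h (funext h3)
  obtain ⟨b, hb, hmin⟩ := (wellFounded_lt (α := I)).has_min {z | y z ≠ y' z} h2
  refine ⟨b, ?_, hb⟩
  intro z hz
  by_contra hne2
  exact hmin z hne2 hz

theorem crit_tame (hcount : ∀ a : I, (Set.Iic a).Countable) (π : K → I → Bool)
    (f : T → K → ℝ) (hf : ∀ t x, |f t x| ≤ 1) (lev : T → I) (br : T → I → Bool)
    (hdep : ∀ t x y b, (∀ z ≤ b, π x z = π y z) → (lev t ≤ b ∨ ∃ z ≤ b, π x z ≠ br t z) →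
      f t x = f t y)
    (c : ℕ → (T →₀ ℝ)) (hc : ∀ n, ((c n).sum fun _ r => |r|) ≤ 1) :
    ∃ φ : ℕ → ℕ, StrictMono φ ∧
      ∀ y, ∃ l, Tendsto (fun n => (c (φ n)).sum fun t r => r * f t y) atTop (𝓝 l) := by
  classical
  set S : Set T := ⋃ n, ((c n).support : Set T) with hSdef
  have hScount : S.Countable := Set.countable_iUnion fun n => (Finset.finite_toSet _).countable
  set P : Set (T × I × Bool) := {p | p.1 ∈ S ∧ p.2.1 ≤ lev p.1} with hP
  have hPcount : P.Countable := by
    have h1 : (⋃ t ∈ S, (fun q : I × Bool => (t, q)) '' (Set.Iic (lev t) ×ˢ Set.univ)).Countable :=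
      hScount.biUnion fun t _ => ((hcount (lev t)).prod Set.countable_univ).image _
    refine h1.mono ?_
    rintro ⟨t, b, i⟩ ⟨h2, h3⟩
    simp only [Set.mem_iUnion, Set.mem_image]
    exact ⟨t, h2, (b, i), ⟨h3, Set.mem_univ _⟩, rfl⟩
  have : Countable P := hPcount.to_subtype
  refine helly (J := P) f hf c hc S
    (fun n t ht => Set.mem_iUnion.2 ⟨n, ht⟩)
    (fun p => {z | (∀ x < p.1.2.1, π z x = br p.1.1 x) ∧ π z p.1.2.1 = p.1.2.2})
    (fun p => {t | p.1.2.1 < lev t ∧ (∀ x < p.1.2.1, br t x = br p.1.1 x) ∧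
      br t p.1.2.1 = p.1.2.2})
    ?_ ?_ ?_
  · rintro ⟨⟨s, b, i⟩, hp⟩ y ⟨hy1, hy2⟩ y' ⟨hy1', hy2'⟩ t _ htD
    simp only at hy1 hy2 hy1' hy2'
    apply hdep t y y' b
    · intro x hx
      rcases hx.lt_or_eq with h | h
      · exact (hy1 x h).trans (hy1' x h).symm
      · rw [h, hy2, hy2']
    · by_cases hb : lev t ≤ b
      · exact Or.inl hb
      · right
        by_contra hcon
        push Not at hcon
        apply htD
        refine ⟨not_le.1 hb, ?_, ?_⟩
        · intro x hx
          exact (hcon x (le_of_lt hx)).symm.trans (hy1 x hx)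
        · exact (hcon b le_rfl).symm.trans hy2
  · have key : ∀ (y : K) (j j' : P),
        ((∀ x < j.1.2.1, π y x = br j.1.1 x) ∧ π y j.1.2.1 = j.1.2.2) →
        ((∀ x < j'.1.2.1, π y x = br j'.1.1 x) ∧ π y j'.1.2.1 = j'.1.2.2) → j.1.2.1 ≤ j'.1.2.1 →
        {t : T | j'.1.2.1 < lev t ∧ (∀ x < j'.1.2.1, br t x = br j'.1.1 x) ∧
          br t j'.1.2.1 = j'.1.2.2} ⊆
        {t : T | j.1.2.1 < lev t ∧ (∀ x < j.1.2.1, br t x = br j.1.1 x) ∧
          br t j.1.2.1 = j.1.2.2} := by
      rintro y j j' ⟨h1, h2⟩ ⟨h1', h2'⟩ hle t ⟨ht1, ht2, ht3⟩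
      have hagree : ∀ x ≤ j'.1.2.1, br t x = π y x := by
        intro x hx
        rcases hx.lt_or_eq with h | h
        · exact (ht2 x h).trans (h1' x h).symm
        · rw [h, ht3, h2']
      refine ⟨lt_of_le_of_lt hle ht1, ?_, ?_⟩
      · intro x hx
        exact (hagree x (hx.le.trans hle)).trans (h1 x hx)
      · exact (hagree _ hle).trans h2
    intro y j j' hj hj'
    rcases le_total j.1.2.1 j'.1.2.1 with hle | hle
    · exact Or.inr (key y j j' hj hj' hle)
    · exact Or.inl (key y j' j hj' hj hle)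
  · intro y y'
    by_cases hall : ∀ t ∈ S, f t y = f t y'
    · exact Or.inl hall
    · right
      push Not at hall
      obtain ⟨t, htS, htne⟩ := hall
      -- if y and y' agree up to b and b separates, contradiction
      have hno : ∀ b, (∀ x ≤ b, π y x = π y' x) → ¬ (lev t ≤ b ∨ ∃ x ≤ b, π y x ≠ br t x) := by
        intro b hb hd
        exact htne (hdep t y y' b hb hd)
      have hne : π y ≠ π y' := by
        intro h
        exact hno (lev t) (fun x _ => by rw [h]) (Or.inl le_rfl)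
      obtain ⟨δ, hδ1, hδ2⟩ := exists_first hne
      have hagree : ∀ x < δ, π y x = br t x := by
        intro x hx
        by_contra hcon
        exact hno x (fun z hz => hδ1 z (lt_of_le_of_lt hz hx)) (Or.inr ⟨x, le_rfl, hcon⟩)
      have hδt : δ ≤ lev t := by
        by_contra hcon
        push Not at hcon
        exact hno (lev t) (fun z hz => hδ1 z (lt_of_le_of_lt hz hcon)) (Or.inl le_rfl)
      refine ⟨⟨(t, δ, π y δ), htS, hδt⟩, ⟨(t, δ, π y' δ), htS, hδt⟩, ⟨hagree, rfl⟩,
        ⟨fun x hx => (hδ1 x hx).symm.trans (hagree x hx), rfl⟩, ?_⟩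
      rw [Set.disjoint_left]
      rintro s ⟨-, -, h1⟩ ⟨-, -, h2⟩
      simp only at h1 h2
      exact hδ2 (h1.symm.trans h2)

/-- The criterion. -/
theorem criterion [TopologicalSpace K] [CompactSpace K] [T2Space K]
    (hcount : ∀ a : I, (Set.Iic a).Countable) (π : K → I → Bool)
    (f : T → K → ℝ) (hfc : ∀ t, Continuous (f t)) (hf : ∀ t x, |f t x| ≤ 1)
    (hsep : ∀ x y, x ≠ y → ∃ t, f t x ≠ f t y) (lev : T → I) (br : T → I → Bool)
    (hdep : ∀ t x y b, (∀ z ≤ b, π x z = π y z) → (lev t ≤ b ∨ ∃ z ≤ b, π x z ≠ br t z) →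
      f t x = f t y) :
    ∃ (E : Type) (_ : NormedAddCommGroup E) (_ : NormedSpace ℝ E) (_ : CompleteSpace E),
      ¬ HasL1 E ∧ ∃ S : Set (WeakDual ℝ E), IsCompact S ∧ Nonempty (K ≃ₜ S) :=
  dfjp f hfc hf hsep (crit_tame hcount π f hf lev br hdep)

end Criterion

end Pool.Agent.WRN
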