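import Mathlib
set_option autoImplicit false
open Filter Topology Cardinal

/-!
The index type: the first uncountable ordinal.
-/

namespace Pool.Agent.WRN

/-- The first uncountable ordinal as a type. -/
abbrev Om : Type := (Cardinal.aleph.{0} 1).ord.ToType

lemma mk_Om : #Om = ℵ₁ := by
  simp [Om]

lemma Om_iio (a : Om) : (Set.Iio a).Countable := by
  rw [← Cardinal.le_aleph0_iff_set_countable, ← Cardinal.lt_aleph_one_iff]
  have h := Cardinal.mk_Iio_lt a (by rw [mk_Om]; simp)
  rwa [mk_Om] at h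

lemma Om_iic (a : Om) : (Set.Iic a).Countable := by
  have h : Set.Iic a = insert a (Set.Iio a) := by
    ext x
    simp [le_iff_eq_or_lt]
  rw [h]
  exact (Om_iio a).insert a

lemma Om_not_countable : ¬ (Set.univ : Set Om).Countable := by
  rw [← Cardinal.le_aleph0_iff_set_countable, ← Cardinal.lt_aleph_one_iff, Cardinal.mk_univ, mk_Om]
  exact lt_irrefl _

lemma Om_bdd (S : Set Om) (hS : S.Countable) : ∃ a, ∀ x ∈ S, x < a := by
  by_contra hcon
  push Not at hcon
  apply Om_not_countable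
  refine (hS.biUnion fun x _ => Om_iic x).mono ?_
  intro a _
  obtain ⟨x, hx, hax⟩ := hcon a
  exact Set.mem_biUnion hx hax

instance : Infinite Om := by
  rw [Cardinal.infinite_iff, mk_Om]
  exact Cardinal.aleph0_le_aleph 1

lemma Om_exists_rk : ∃ rk : Om → Om → ℕ, ∀ a, Set.InjOn (rk a) (Set.Iio a) := by
  have h : ∀ a : Om, ∃ r : Om → ℕ, Set.InjOn r (Set.Iio a) := fun a =>
    Set.countable_iff_exists_injOn.1 (Om_iio a)
  choose rk hrk using h
  exact ⟨rk, hrk⟩

/-- Every sequence of natural numbers tending to infinity can be split. -/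
lemma exists_split (s : ℕ → ℕ) (hs : Tendsto s atTop atTop) :
    ∃ M : Set ℕ, (∃ᶠ j in atTop, s j ∈ M) ∧ (∃ᶠ j in atTop, s j ∉ M) := by
  obtain ⟨φ, hφ, hsφ⟩ := strictMono_subseq_of_tendsto_atTop hs
  refine ⟨{m | ∃ k, m = s (φ (2 * k))}, ?_, ?_⟩
  · rw [frequently_atTop]
    intro n
    refine ⟨φ (2 * n), ?_, ⟨n, rfl⟩⟩
    have := hφ.id_le (2 * n)
    simp only [id] at this
    omega
  · rw [frequently_atTop]
    intro n
    refine ⟨φ (2 * n + 1), ?_, ?_⟩
    · have := hφ.id_le (2 * n + 1)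
      simp only [id] at this
      omega
    · rintro ⟨k, hk⟩
      have h1 := hsφ.injective hk
      omega

/-- Under CH there is a selection anticipating every sequence of levels. -/
theorem exists_sel (hCH : Cardinal.continuum.{0} = Cardinal.aleph.{0} 1) :
    ∃ sel : Om → (Om → ℕ) → Set ℕ, ∀ β : ℕ → Om, ∃ a, (∀ j, β j < a) ∧
      ∀ r : Om → ℕ, Tendsto (fun j => r (β j)) atTop atTop →
        (∃ᶠ j in atTop, r (β j) ∈ sel a r) ∧ (∃ᶠ j in atTop, r (β j) ∉ sel a r) := by
  classical
  have h1 : #((ℕ → Om) × Om) = #Om := by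
    rw [Cardinal.mk_prod, Cardinal.lift_id, Cardinal.lift_id]
    have h2 : #(ℕ → Om) = ℵ₁ := by
      rw [← Cardinal.power_def, mk_Om, Cardinal.mk_nat, ← hCH, Cardinal.continuum_power_aleph0]
    rw [h2, mk_Om]
    exact Cardinal.mul_eq_self (Cardinal.aleph0_le_aleph 1)
  obtain ⟨e⟩ := Cardinal.eq.1 h1.symm
  refine ⟨fun a r => if h : Tendsto (fun j => r ((e a).1 j)) atTop atTop then
    (exists_split _ h).choose else ∅, ?_⟩
  intro β
  obtain ⟨b, hb⟩ := Om_bdd (Set.range β) (Set.countable_range β)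
  have h3 : ∃ a, b < a ∧ (e a).1 = β := by
    by_contra hcon
    push Not at hcon
    apply Om_not_countable
    have h4 : (Set.univ : Set Om) ⊆ (fun x => (e x).2) '' Set.Iic b := by
      intro x _
      refine ⟨e.symm (β, x), ?_, by simp⟩
      by_contra h5
      exact hcon (e.symm (β, x)) (not_le.1 h5) (by simp)
    exact ((Om_iic b).image _).mono h4
  obtain ⟨a, hba, ha⟩ := h3
  refine ⟨a, fun j => (hb _ ⟨j, rfl⟩).trans hba, ?_⟩
  intro r hr
  have hr' : Tendsto (fun j => r ((e a).1 j)) atTop atTop := by rw [ha]; exact hr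
  beta_reduce
  rw [dif_pos hr']
  have := (exists_split _ hr').choose_spec
  simp only [ha] at this ⊢
  exact this

end Pool.Agent.WRN
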