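import Pool.Agent.WRN.TreeTame
import Pool.Agent.WRN.Omega1
import Pool.Agent.WRN.DFJP
set_option autoImplicit false
open Filter Topology

/-!
Assembly: under a selection principle (implied by CH) there is an infinite zero-dimensional weak
Radon-Nikodym compactum without nontrivial convergent sequences.
-/

namespace Pool.Agent.WRN

/-- The space exists as soon as there is a selection `sel` which anticipates all sequences of levels. -/
theorem exists_space (rk : Om → Om → ℕ) (hrk : ∀ a, Set.InjOn (rk a) (Set.Iio a))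
    (sel : Om → (Om → ℕ) → Set ℕ)
    (hsel : ∀ (β : ℕ → Om) (y : Pt Om),
      (∀ a, (∀ j, β j < a) → Tendsto (fun j => R rk sel a y (β j)) atTop atTop) →
      ∃ a, (∀ j, β j < a) ∧ (∃ᶠ j in atTop, R rk sel a y (β j) ∈ sel a (R rk sel a y)) ∧
        (∃ᶠ j in atTop, R rk sel a y (β j) ∉ sel a (R rk sel a y))) :
    ∃ (K : Type) (_ : TopologicalSpace K) (_ : CompactSpace K) (_ : T2Space K) (_ : Infinite K)
      (_ : TotallyDisconnectedSpace K)
      (E : Type) (_ : NormedAddCommGroup E) (_ : NormedSpace ℝ E) (_ : CompleteSpace E),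
      ¬ HasL1 E ∧ (∃ S : Set (WeakDual ℝ E), IsCompact S ∧ Nonempty (K ≃ₜ S)) ∧
      ∀ (x : ℕ → K) (y : K), Tendsto x atTop (𝓝 y) → ∀ᶠ n in atTop, x n = y := by
  classical
  let _ := top rk sel
  have hcomp : CompactSpace (Pt Om) := compact rk sel hrk
  have ht2 : T2Space (Pt Om) := t2 rk sel
  have hinf : Infinite (Pt Om) := inferInstanceAs (Infinite (Om → Bool))
  have hcl : ∀ a f, IsClopen (N rk sel a f) := isClopen_N rk sel
  have hsepN : ∀ y z : Pt Om, y ≠ z → ∃ b, y ∈ N rk sel b z ↔ ¬ (z ∈ N rk sel b z) := by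
    intro y z hyz
    obtain ⟨b, hb1, hb2⟩ := exists_delta hyz
    refine ⟨b, ?_⟩
    rw [mem_N_agree rk sel hb1, mem_N_agree rk sel (fun x _ => rfl)]
    cases h1 : y b <;> cases h2 : z b <;> simp_all
  have hts : TotallySeparatedSpace (Pt Om) := by
    rw [totallySeparatedSpace_iff_exists_isClopen]
    intro y z hyz
    obtain ⟨b, hb⟩ := hsepN y z hyz
    by_cases h1 : y ∈ N rk sel b z
    · exact ⟨N rk sel b z, hcl b z, h1, hb.1 h1⟩
    · refine ⟨(N rk sel b z)ᶜ, (hcl b z).compl, h1, ?_⟩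
      intro h3
      exact h1 (hb.2 h3)
  have htd : TotallyDisconnectedSpace (Pt Om) := inferInstance
  have hcont : ∀ t, Continuous (ind rk sel t) := by
    intro t
    have h1 : ind rk sel t = (N rk sel t.1 t.2).indicator (fun _ => (1 : ℝ)) := by
      funext y
      unfold ind
      rw [Set.indicator_apply]
    rw [h1]
    exact (hcl t.1 t.2).continuous_indicator continuous_const
  obtain ⟨E, i1, i2, i3, hE, hS⟩ := dfjp (K := Pt Om) (T := Om × Pt Om) (ind rk sel) hcont
    (abs_ind_le rk sel)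
    (by
      intro y z hyz
      obtain ⟨b, hb⟩ := hsepN y z hyz
      refine ⟨(b, z), ?_⟩
      unfold ind
      by_cases h1 : y ∈ N rk sel b z
      · rw [if_pos h1, if_neg (hb.1 h1)]; norm_num
      · have h2 : z ∈ N rk sel b z := by
          by_contra h3
          exact h1 (hb.2 h3)
        rw [if_neg h1, if_pos h2]; norm_num)
    (tree_tame rk sel Om_iic)
  exact ⟨Pt Om, top rk sel, hcomp, ht2, hinf, htd, E, i1, i2, i3, hE, hS,
    fun x y hx => no_conv rk sel hrk hsel x y hx⟩

theorem main_CH (hCH : Cardinal.continuum.{0} = Cardinal.aleph.{0} 1) :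
    ∃ (K : Type) (_ : TopologicalSpace K) (_ : CompactSpace K) (_ : T2Space K) (_ : Infinite K)
      (_ : TotallyDisconnectedSpace K)
      (E : Type) (_ : NormedAddCommGroup E) (_ : NormedSpace ℝ E) (_ : CompleteSpace E),
      ¬ HasL1 E ∧ (∃ S : Set (WeakDual ℝ E), IsCompact S ∧ Nonempty (K ≃ₜ S)) ∧
      ∀ (x : ℕ → K) (y : K), Tendsto x atTop (𝓝 y) → ∀ᶠ n in atTop, x n = y := by
  obtain ⟨rk, hrk⟩ := Om_exists_rk
  obtain ⟨sel, hsel⟩ := exists_sel hCH
  apply exists_space rk hrk sel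
  intro β y hy
  obtain ⟨a, ha, h⟩ := hsel β
  exact ⟨a, ha, h _ (hy a ha)⟩

end Pool.Agent.WRN
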