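import Mathlib

/-!
# MP_20791f_an, module WRN/Helly: a Helly type selection theorem for tree-like families
-/

set_option autoImplicit false

open Filter Topology

namespace Pool.Agent.WRN

/-- diagonal sequences: a bounded sequence of functions on a countable set has a pointwise
convergent subsequence -/
theorem helly_diag {ι : Type} [Countable ι] (g : ℕ → ι → ℝ) (hg : ∀ n i, |g n i| ≤ 1) :
    ∃ φ : ℕ → ℕ, StrictMono φ ∧ ∀ i, ∃ l, Tendsto (fun n => g (φ n) i) atTop (𝓝 l) := by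
  have hK : IsCompact (Set.univ.pi fun _ : ι => Set.Icc (-1 : ℝ) 1) :=
    isCompact_univ_pi fun _ => isCompact_Icc
  obtain ⟨a, _, φ, hφ, hlim⟩ := hK.tendsto_subseq (x := g) fun n i _ =>
    abs_le.1 (hg n i)
  refine ⟨φ, hφ, fun i => ⟨a i, ?_⟩⟩
  exact (tendsto_pi_nhds.1 hlim) i

theorem helly_min {T J : Type} (D : J → Set T) (I : Finset J) (hI : I.Nonempty)
    (hch : ∀ i ∈ I, ∀ i' ∈ I, D i ⊆ D i' ∨ D i' ⊆ D i) : ∃ i₀ ∈ I, ∀ i ∈ I, D i₀ ⊆ D i := by
  classical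
  induction hI using Finset.Nonempty.cons_induction with
  | singleton a => exact ⟨a, Finset.mem_singleton_self a, fun i hi => by
      rw [Finset.mem_singleton] at hi; rw [hi]⟩
  | cons a s ha hs ih =>
    obtain ⟨i₀, h0, h1⟩ := ih fun i hi i' hi' =>
      hch i (Finset.mem_cons_of_mem hi) i' (Finset.mem_cons_of_mem hi')
    rcases hch a (Finset.mem_cons_self a s) i₀ (Finset.mem_cons_of_mem h0) with h | h
    · refine ⟨a, Finset.mem_cons_self a s, fun i hi => ?_⟩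
      rcases Finset.mem_cons.1 hi with rfl | hi
      · exact subset_rfl
      · exact h.trans (h1 i hi)
    · refine ⟨i₀, Finset.mem_cons_of_mem h0, fun i hi => ?_⟩
      rcases Finset.mem_cons.1 hi with rfl | hi
      · exact h
      · exact h1 i hi

theorem helly_disj {X T J : Type} (C : J → Set X) (D : J → Set T)
    (chain : ∀ y j j', y ∈ C j → y ∈ C j' → D j ⊆ D j' ∨ D j' ⊆ D j)
    (Q : Finset X) (hQ : 2 ≤ Q.card)
    (sep : ∀ y ∈ Q, ∀ y' ∈ Q, y ≠ y' → ∃ j j', y ∈ C j ∧ y' ∈ C j' ∧ Disjoint (D j) (D j')) :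
    ∃ i : X → J, (∀ y ∈ Q, y ∈ C (i y)) ∧
      ∀ y ∈ Q, ∀ y' ∈ Q, y ≠ y' → Disjoint (D (i y)) (D (i y')) := by
  classical
  have hJ : Nonempty J := by
    obtain ⟨y, hy, y', hy', hne⟩ := Finset.one_lt_card.1 (show 1 < Q.card by omega)
    obtain ⟨j, _⟩ := sep y hy y' hy' hne
    exact ⟨j⟩
  choose! a b hab using sep
  set cand : X → Finset J := fun y => (Q.erase y).image (fun y' => a y y') ∪
    (Q.erase y).image (fun y' => b y' y) with hcand
  have hcandC : ∀ y ∈ Q, ∀ i ∈ cand y, y ∈ C i := by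
    intro y hy i hi
    rcases Finset.mem_union.1 hi with h | h
    · obtain ⟨y', hy', rfl⟩ := Finset.mem_image.1 h
      obtain ⟨hne, hy'Q⟩ := Finset.mem_erase.1 hy'
      exact (hab y hy y' hy'Q hne.symm).1
    · obtain ⟨y', hy', rfl⟩ := Finset.mem_image.1 h
      obtain ⟨hne, hy'Q⟩ := Finset.mem_erase.1 hy'
      exact (hab y' hy'Q y hy hne).2.1
  have hne : ∀ y ∈ Q, (cand y).Nonempty := by
    intro y hy
    have hc : (Q.erase y).Nonempty := by
      rw [← Finset.card_pos, Finset.card_erase_of_mem hy]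
      omega
    exact (hc.image _).mono Finset.subset_union_left
  have hmin : ∀ y ∈ Q, ∃ i₀ ∈ cand y, ∀ i ∈ cand y, D i₀ ⊆ D i := fun y hy =>
    helly_min D (cand y) (hne y hy) fun i hi i' hi' =>
      chain y i i' (hcandC y hy i hi) (hcandC y hy i' hi')
  choose! i₀ hi₀ hi₀' using hmin
  refine ⟨i₀, fun y hy => hcandC y hy _ (hi₀ y hy), fun y hy y' hy' hyy' => ?_⟩
  have h1 : D (i₀ y) ⊆ D (a y y') := hi₀' y hy _ (Finset.mem_union_left _
    (Finset.mem_image_of_mem _ (Finset.mem_erase.2 ⟨hyy'.symm, hy'⟩)))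
  have h2 : D (i₀ y') ⊆ D (b y y') := hi₀' y' hy' _ (Finset.mem_union_right _
    (Finset.mem_image.2 ⟨y, Finset.mem_erase.2 ⟨hyy', hy⟩, rfl⟩))
  exact (hab y hy y' hy' hyy').2.2.mono h1 h2

/-- mass of `c` on a set -/
noncomputable def hellyW {T : Type} (c : T →₀ ℝ) (D : Set T) : ℝ :=
  ∑ t ∈ c.support, D.indicator (fun t => |c t|) t

theorem hellyW_nonneg {T : Type} (c : T →₀ ℝ) (D : Set T) : 0 ≤ hellyW c D :=
  Finset.sum_nonneg fun t _ => Set.indicator_nonneg (fun _ _ => abs_nonneg _) t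

theorem hellyW_le {T : Type} (c : T →₀ ℝ) (D : Set T) (hc : (c.sum fun _ r => |r|) ≤ 1) :
    hellyW c D ≤ 1 := by
  refine le_trans (Finset.sum_le_sum fun t _ => ?_) hc
  exact Set.indicator_le_self' (fun _ _ => abs_nonneg _) t

theorem hellyW_sum {X T J : Type} (D : J → Set T) (Q : Finset X) (i : X → J)
    (h : ∀ y ∈ Q, ∀ y' ∈ Q, y ≠ y' → Disjoint (D (i y)) (D (i y'))) (c : T →₀ ℝ)
    (hc : (c.sum fun _ r => |r|) ≤ 1) : ∑ y ∈ Q, hellyW c (D (i y)) ≤ 1 := by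
  classical
  unfold hellyW
  rw [Finset.sum_comm]
  refine le_trans (Finset.sum_le_sum fun t _ => ?_) hc
  by_cases hex : ∃ y ∈ Q, t ∈ D (i y)
  · obtain ⟨y, hy, hty⟩ := hex
    rw [Finset.sum_eq_single y]
    · rw [Set.indicator_of_mem hty]
    · intro y' hy' hne
      rw [Set.indicator_of_notMem]
      intro hty'
      exact Set.disjoint_left.1 (h y' hy' y hy hne) hty' hty
    · intro hcon; exact absurd hy hcon
  · push Not at hex
    rw [Finset.sum_eq_zero]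
    · exact abs_nonneg _
    · intro y hy
      rw [Set.indicator_of_notMem (hex y hy)]

theorem helly_val {X T : Type} (f : T → X → ℝ) (hf : ∀ t y, |f t y| ≤ 1) (c : T →₀ ℝ)
    (hc : (c.sum fun _ r => |r|) ≤ 1) (y : X) : |c.sum fun t r => r * f t y| ≤ 1 := by
  refine le_trans (Finset.abs_sum_le_sum_abs _ _) (le_trans (Finset.sum_le_sum fun t _ => ?_) hc)
  rw [abs_mul]
  exact mul_le_of_le_one_right (abs_nonneg _) (hf t y)

theorem helly_osc {X T : Type} (f : T → X → ℝ) (hf : ∀ t y, |f t y| ≤ 1) (c : T →₀ ℝ)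
    (S : Set T) (hS : ∀ t ∈ c.support, t ∈ S) (D : Set T) (y y' : X)
    (h : ∀ t ∈ S, t ∉ D → f t y = f t y') :
    |(c.sum fun t r => r * f t y) - c.sum fun t r => r * f t y'| ≤ 2 * hellyW c D := by
  unfold Finsupp.sum hellyW
  rw [← Finset.sum_sub_distrib, Finset.mul_sum]
  refine le_trans (Finset.abs_sum_le_sum_abs _ _) (Finset.sum_le_sum fun t ht => ?_)
  rw [← mul_sub, abs_mul]
  by_cases hD : t ∈ D
  · rw [Set.indicator_of_mem hD, mul_comm]
    refine mul_le_mul_of_nonneg_right ?_ (abs_nonneg _)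
    have h1 := abs_le.1 (hf t y)
    have h2 := abs_le.1 (hf t y')
    rw [abs_le]
    constructor <;> linarith [h1.1, h1.2, h2.1, h2.2]
  · rw [Set.indicator_of_notMem hD, h t (hS t ht) hD, sub_self, abs_zero, mul_zero, mul_zero]

theorem helly {X T J : Type} [Countable J] (f : T → X → ℝ) (hf : ∀ t y, |f t y| ≤ 1)
    (c : ℕ → (T →₀ ℝ)) (hc : ∀ n, ((c n).sum fun _ r => |r|) ≤ 1)
    (S : Set T) (hS : ∀ n, ∀ t ∈ (c n).support, t ∈ S)
    (C : J → Set X) (D : J → Set T)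
    (osc : ∀ j, ∀ y ∈ C j, ∀ y' ∈ C j, ∀ t ∈ S, t ∉ D j → f t y = f t y')
    (chain : ∀ y j j', y ∈ C j → y ∈ C j' → D j ⊆ D j' ∨ D j' ⊆ D j)
    (sep : ∀ y y', (∀ t ∈ S, f t y = f t y') ∨
      ∃ j j', y ∈ C j ∧ y' ∈ C j' ∧ Disjoint (D j) (D j')) :
    ∃ φ : ℕ → ℕ, StrictMono φ ∧
      ∀ y, ∃ l, Tendsto (fun n => (c (φ n)).sum fun t r => r * f t y) atTop (𝓝 l) := by
  classical
  rcases isEmpty_or_nonempty X with hX | hX
  · exact ⟨id, strictMono_id, fun y => hX.elim y⟩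
  set F : ℕ → X → ℝ := fun n y => (c n).sum fun t r => r * f t y with hF
  -- chosen points
  have hx : ∀ j, ∃ x : X, (C j).Nonempty → x ∈ C j := by
    intro j
    rcases (C j).eq_empty_or_nonempty with h | ⟨x, hx⟩
    · exact ⟨Classical.arbitrary X, fun h' => absurd h h'.ne_empty⟩
    · exact ⟨x, fun _ => hx⟩
  choose x hx using hx
  -- first diagonal sequence
  obtain ⟨φ₁, hφ₁, hlim₁⟩ := helly_diag (ι := J ⊕ J)
    (fun n => Sum.elim (fun j => hellyW (c n) (D j)) (fun j => F n (x j))) (by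
      rintro n (j | j)
      · show |hellyW (c n) (D j)| ≤ 1
        rw [abs_of_nonneg (hellyW_nonneg _ _)]
        exact hellyW_le _ _ (hc n)
      · exact helly_val f hf (c n) (hc n) (x j))
  have hW : ∀ j, ∃ l, Tendsto (fun n => hellyW (c (φ₁ n)) (D j)) atTop (𝓝 l) := fun j =>
    hlim₁ (Sum.inl j)
  have hFx : ∀ j, ∃ l, Tendsto (fun n => F (φ₁ n) (x j)) atTop (𝓝 l) := fun j =>
    hlim₁ (Sum.inr j)
  choose m hm using hW
  -- bad points
  let Bad : ℕ → Set X := fun k => {y | ∀ j, y ∈ C j → 1 / ((k : ℝ) + 1) ≤ m j}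
  let s : Setoid X := ⟨fun y y' => ∀ t ∈ S, f t y = f t y', fun _ _ _ => rfl,
    fun h t ht => (h t ht).symm, fun h h' t ht => (h t ht).trans (h' t ht)⟩
  have hcard : ∀ (k : ℕ) (Q : Finset X), (∀ y ∈ Q, y ∈ Bad k) →
      (∀ y ∈ Q, ∀ y' ∈ Q, y ≠ y' → ¬ ∀ t ∈ S, f t y = f t y') → Q.card ≤ k + 1 := by
    intro k Q hQB hQ
    by_contra hcon
    push Not at hcon
    obtain ⟨i, hi, hdis⟩ := helly_disj C D chain Q (by omega) fun y hy y' hy' hne =>
      (sep y y').resolve_left (hQ y hy y' hy' hne)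
    have hlim : Tendsto (fun n => ∑ y ∈ Q, hellyW (c (φ₁ n)) (D (i y))) atTop
        (𝓝 (∑ y ∈ Q, m (i y))) := tendsto_finsetSum _ fun y _ => hm (i y)
    have hle : ∑ y ∈ Q, m (i y) ≤ 1 :=
      le_of_tendsto' hlim fun n => hellyW_sum D Q i hdis _ (hc _)
    have hge : ∑ y ∈ Q, (1 / ((k : ℝ) + 1)) ≤ ∑ y ∈ Q, m (i y) :=
      Finset.sum_le_sum fun y hy => hQB y hy (i y) (hi y hy)
    rw [Finset.sum_const, nsmul_eq_mul] at hge
    have hk : (0 : ℝ) < (k : ℝ) + 1 := by positivity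
    have hQc : ((k : ℝ) + 1) + 1 ≤ (Q.card : ℝ) := by exact_mod_cast hcon
    have : ((k : ℝ) + 1 + 1) * (1 / ((k : ℝ) + 1)) ≤ 1 :=
      (mul_le_mul_of_nonneg_right hQc (by positivity)).trans (hge.trans hle)
    rw [mul_one_div, div_le_one hk] at this
    linarith
  have hfin : ∀ k, ∃ Q : Set X, Q ⊆ Bad k ∧ Q.Finite ∧ ∀ y ∈ Bad k, ∃ q ∈ Q,
      ∀ t ∈ S, f t y = f t q := by
    intro k
    obtain ⟨Q, hQs, hbij⟩ := Set.exists_subset_bijOn (Bad k) (Quotient.mk s)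
    refine ⟨Q, hQs, ?_, ?_⟩
    · by_contra hinf
      obtain ⟨t, htQ, htc⟩ := Set.Infinite.exists_subset_card_eq hinf (k + 2)
      have := hcard k t (fun y hy => hQs (htQ hy)) fun y hy y' hy' hne hcon =>
        hne (hbij.injOn (htQ hy) (htQ hy') (Quotient.sound (s := s) hcon))
      omega
    · intro y hy
      obtain ⟨q, hq, hqe⟩ := hbij.surjOn (Set.mem_image_of_mem _ hy)
      exact ⟨q, hq, fun t ht => ((Quotient.exact (s := s) hqe) t ht).symm⟩
  choose Q hQB hQfin hQ using hfin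
  have hcount : (⋃ k, Q k).Countable := Set.countable_iUnion fun k => (hQfin k).countable
  have : Countable (⋃ k, Q k : Set X) := hcount.to_subtype
  obtain ⟨φ₂, hφ₂, hlim₂⟩ := helly_diag (ι := (⋃ k, Q k : Set X))
    (fun n q => F (φ₁ n) q) fun n q => helly_val f hf (c (φ₁ n)) (hc _) q
  refine ⟨φ₁ ∘ φ₂, hφ₁.comp hφ₂, fun y => ?_⟩
  by_cases hy : ∃ k, y ∈ Bad k
  · obtain ⟨k, hk⟩ := hy
    obtain ⟨q, hq, hyq⟩ := hQ k y hk
    obtain ⟨l, hl⟩ := hlim₂ ⟨q, Set.mem_iUnion.2 ⟨k, hq⟩⟩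
    refine ⟨l, hl.congr fun n => ?_⟩
    refine Finset.sum_congr rfl fun t ht => ?_
    show _ * f t q = _ * f t y
    rw [hyq t (hS _ t ht)]
    rfl
  · push Not at hy
    apply cauchySeq_tendsto_of_complete
    rw [Metric.cauchySeq_iff]
    intro ε hε
    obtain ⟨k, hk⟩ := exists_nat_one_div_lt (show 0 < ε / 8 by positivity)
    have hyk := hy k
    simp only [Bad, Set.mem_ofPred_eq, not_forall, not_le] at hyk
    obtain ⟨j, hyj, hmj⟩ := hyk
    obtain ⟨l, hl⟩ := hFx j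
    have hc1 : ∀ᶠ n in atTop, hellyW (c (φ₁ (φ₂ n))) (D j) < ε / 8 :=
      ((hm j).comp hφ₂.tendsto_atTop).eventually_lt_const (hmj.trans hk)
    have hl' : Tendsto (fun n => F (φ₁ (φ₂ n)) (x j)) atTop (𝓝 l) :=
      hl.comp hφ₂.tendsto_atTop
    have hc2 : ∀ᶠ n in atTop, |F (φ₁ (φ₂ n)) (x j) - l| < ε / 8 := by
      have := Metric.tendsto_nhds.1 hl' (ε / 8) (by positivity)
      simpa [Real.dist_eq] using this
    obtain ⟨n₀, hn₀⟩ := Filter.eventually_atTop.1 (hc1.and hc2)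
    refine ⟨n₀, fun a ha b hb => ?_⟩
    have key : ∀ n ≥ n₀, |F (φ₁ (φ₂ n)) y - l| < 3 * (ε / 8) := by
      intro n hn
      obtain ⟨h1, h2⟩ := hn₀ n hn
      have h3 := helly_osc f hf (c (φ₁ (φ₂ n))) S (hS _) (D j) y (x j)
        (osc j y hyj (x j) (hx j ⟨y, hyj⟩))
      have h3' : |F (φ₁ (φ₂ n)) y - F (φ₁ (φ₂ n)) (x j)| ≤
        2 * hellyW (c (φ₁ (φ₂ n))) (D j) := h3
      have e1 : F (φ₁ (φ₂ n)) y - l = (F (φ₁ (φ₂ n)) y - F (φ₁ (φ₂ n)) (x j)) +
        (F (φ₁ (φ₂ n)) (x j) - l) := by ring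
      rw [e1]
      refine (abs_add_le _ _).trans_lt ?_
      linarith
    have e2 : dist (F (φ₁ (φ₂ a)) y) (F (φ₁ (φ₂ b)) y) < ε := by
      rw [Real.dist_eq]
      have e1 : F (φ₁ (φ₂ a)) y - F (φ₁ (φ₂ b)) y = (F (φ₁ (φ₂ a)) y - l) -
        (F (φ₁ (φ₂ b)) y - l) := by ring
      rw [e1]
      refine (abs_sub _ _).trans_lt ?_
      have := key a ha
      have := key b hb
      linarith
    exact e2

end Pool.Agent.WRN
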