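import Pool.Agent.WRN.Tree
set_option autoImplicit false
open Filter Topology

/-!
The topology on `Pt I` generated by the sets `N a f` and their complements: compact, Hausdorff,
the sets `N a f` are clopen, and (if the selection `sel` is good enough) no nontrivial sequence converges.
-/

namespace Pool.Agent.WRN

section Space

variable {I : Type} [LinearOrder I] [WellFoundedLT I]
variable (rk : I → I → ℕ) (sel : I → (I → ℕ) → Set ℕ)

open Classical in
/-- The evaluation map. -/
noncomputable def ev (y : Pt I) : I × Pt I → Bool := fun t => decide (y ∈ N rk sel t.1 t.2)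

/-- The topology. -/
@[instance_reducible] noncomputable def top : TopologicalSpace (Pt I) :=
  TopologicalSpace.induced (ev rk sel) (inferInstance : TopologicalSpace (I × Pt I → Bool))

lemma ev_inj : Function.Injective (ev rk sel) := by
  intro y z hyz
  by_contra hne
  have h1 : ∃ b, (∀ x < b, y x = z x) ∧ y b ≠ z b := by
    have h2 : ∃ b, y b ≠ z b := by
      by_contra h3
      push Not at h3
      exact hne (funext h3)
    obtain ⟨b, hb, hmin⟩ := (wellFounded_lt (α := I)).has_min {x | y x ≠ z x} h2
    refine ⟨b, ?_, hb⟩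
    intro x hx
    by_contra hne2
    exact hmin x hne2 hx
  obtain ⟨b, h2, h3⟩ := h1
  have h4 := congrFun hyz (b, z)
  unfold ev at h4
  simp only [decide_eq_decide] at h4
  rw [mem_N_agree rk sel h2, mem_N_agree rk sel (fun x _ => rfl)] at h4
  apply h3
  cases hy : y b <;> cases hz : z b <;> simp_all

theorem isClopen_N (a : I) (f : Pt I) : @IsClopen _ (top rk sel) (N rk sel a f) := by
  let _ := top rk sel
  have hc : Continuous (ev rk sel) := continuous_induced_dom
  have h1 : N rk sel a f = (fun y => ev rk sel y (a, f)) ⁻¹' {true} := by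
    ext y
    simp [ev]
  rw [h1]
  exact (isClopen_discrete _).preimage ((continuous_apply (a, f)).comp hc)

theorem t2 : @T2Space _ (top rk sel) := by
  let _ := top rk sel
  have hc : Continuous (ev rk sel) := continuous_induced_dom
  exact T2Space.of_injective_continuous (ev_inj rk sel) hc

lemma tendsto_iff {α : Type} (l : Filter α) (x : α → Pt I) (y : Pt I) :
    Tendsto x l (@nhds _ (top rk sel) y) ↔
      ∀ a f, ∀ᶠ j in l, (x j ∈ N rk sel a f ↔ y ∈ N rk sel a f) := by
  let _ := top rk sel
  have hi : IsInducing (ev rk sel) := ⟨rfl⟩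
  rw [hi.tendsto_nhds_iff, tendsto_pi_nhds]
  constructor
  · intro h a f
    have h1 := h (a, f)
    rw [nhds_discrete, tendsto_pure] at h1
    filter_upwards [h1] with j hj
    simpa [ev] using hj
  · rintro h ⟨a, f⟩
    rw [nhds_discrete, tendsto_pure]
    filter_upwards [h a f] with j hj
    simpa [ev] using hj

open Classical in
/-- The candidate limit of an ultrafilter. -/
noncomputable def lim (U : Ultrafilter (Pt I)) : Pt I :=
  (wellFounded_lt (α := I)).fix
    (fun b rec => decide (N rk sel b (fun x => if h : x < b then rec x h else false) ∈ U))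

lemma lim_eq (U : Ultrafilter (Pt I)) (b : I) :
    lim rk sel U b = true ↔ N rk sel b (lim rk sel U) ∈ U := by
  classical
  have h := WellFounded.fix_eq (wellFounded_lt (α := I))
    (fun b (rec : (x : I) → x < b → Bool) =>
      decide (N rk sel b (fun x => if h : x < b then rec x h else false) ∈ U)) b
  have h2 : lim rk sel U b =
      decide (N rk sel b (fun x => if _h : x < b then lim rk sel U x else false) ∈ U) := h
  rw [h2, decide_eq_true_iff]
  rw [N_congr rk sel (f := (fun x => if _h : x < b then lim rk sel U x else false))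
    (f' := lim rk sel U) (fun x hx => by simp [hx])]

theorem compact (hrk : ∀ a, Set.InjOn (rk a) (Set.Iio a)) : @CompactSpace _ (top rk sel) := by
  let _ := top rk sel
  refine ⟨?_⟩
  rw [isCompact_iff_ultrafilter_le_nhds]
  intro U _
  refine ⟨lim rk sel U, Set.mem_univ _, ?_⟩
  have goal : Tendsto (fun x : Pt I => x) (U : Filter (Pt I)) (𝓝 (lim rk sel U)) := by
    rw [tendsto_iff]
    set y := lim rk sel U with hy
    have hyU : ∀ b, y b = true ↔ N rk sel b y ∈ U := lim_eq rk sel U
    have hev : ∀ b, ∀ᶠ z in (U : Filter (Pt I)), (z ∈ N rk sel b y ↔ y b = true) := by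
      intro b
      by_cases h : y b = true
      · have h1 := (hyU b).1 h
        filter_upwards [h1] with z hz
        exact ⟨fun _ => h, fun _ => hz⟩
      · have h1 : N rk sel b y ∉ U := fun h2 => h ((hyU b).2 h2)
        have h2 : (N rk sel b y)ᶜ ∈ U := Ultrafilter.compl_mem_iff_notMem.2 h1
        filter_upwards [h2] with z hz
        exact ⟨fun h3 => absurd h3 hz, fun h3 => absurd h3 h⟩
    intro a f
    rcases dich y f a with h1 | ⟨β, hβ, h1, h2⟩
    · rw [← N_congr rk sel h1]
      filter_upwards [hev a] with z hz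
      rw [hz, mem_N_agree rk sel (fun x _ => rfl)]
    · obtain ⟨B, hβB, hB1, hB2⟩ := cont rk sel hrk a f β hβ
      have hall : ∀ᶠ z in (U : Filter (Pt I)), ∀ b ∈ B, (z ∈ N rk sel b y ↔ y b = true) := by
        rw [Filter.eventually_all_finset]
        exact fun b _ => hev b
      filter_upwards [hall] with z hz
      rw [mem_N_delta rk sel hβ h1 h2]
      -- compare z with y below (and at) β
      have hcase : (∀ x ≤ β, z x = y x) ∨ ∃ c ≤ β, (∀ x < c, z x = y x) ∧ z c ≠ y c := by
        rcases dich z y β with h3 | ⟨c, hc, h3, h4⟩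
        · by_cases h5 : z β = y β
          · left
            intro x hx
            rcases hx.lt_or_eq with h6 | h6
            · exact h3 x h6
            · rw [h6]; exact h5
          · exact Or.inr ⟨β, le_rfl, h3, h5⟩
        · exact Or.inr ⟨c, hc.le, h3, h4⟩
      rcases hcase with h3 | ⟨c, hc, h3, h4⟩
      · rw [mem_N_delta rk sel hβ (fun x hx => (h3 x hx.le).trans (h1 x hx))
          (fun h5 => h2 ((h3 β le_rfl).symm.trans h5))]
      · have hcB : c ∉ B := by
          intro hcB
          have h5 := hz c hcB
          rw [mem_N_agree rk sel h3] at h5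
          exact h4 (Bool.eq_iff_iff.2 h5)
        have hclt : c < β := by
          rcases hc.lt_or_eq with h5 | h5
          · exact h5
          · exact absurd (h5 ▸ hβB) hcB
        have hhyp : Hyp rk sel f β c B := by
          refine ⟨hcB, ?_⟩
          intro b hb hcb
          have h5 := hz b hb
          rw [mem_N_delta rk sel hcb h3 h4] at h5
          have h6 : G rk sel b y = G rk sel b f :=
            G_congr rk sel b y f (fun x hx => h1 x (lt_of_lt_of_le hx (hB1 b hb)))
          rw [h6] at h5
          have h7 : G rk sel b f c = y b := Bool.eq_iff_iff.2 h5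
          rw [h7]
          split_ifs with h8
          · subst h8
            exact Bool.eq_not.2 h2
          · exact h1 b (lt_of_le_of_ne (hB1 b hb) h8)
        have h5 := hB2 c hclt hhyp
        have h6 : ∀ x < c, z x = f x := fun x hx => (h3 x hx).trans (h1 x (hx.trans hclt))
        have h7 : z c ≠ f c := fun h8 => h4 (h8.trans (h1 c hclt).symm)
        rw [mem_N_delta rk sel (hclt.trans hβ) h6 h7, h5]
  exact goal

/-- No nontrivial convergent sequence, if the selection `sel` anticipates every sequence of levels. -/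
theorem no_conv (hrk : ∀ a, Set.InjOn (rk a) (Set.Iio a))
    (hsel : ∀ (β : ℕ → I) (y : Pt I),
      (∀ a, (∀ j, β j < a) → Tendsto (fun j => R rk sel a y (β j)) atTop atTop) →
      ∃ a, (∀ j, β j < a) ∧ (∃ᶠ j in atTop, R rk sel a y (β j) ∈ sel a (R rk sel a y)) ∧
        (∃ᶠ j in atTop, R rk sel a y (β j) ∉ sel a (R rk sel a y)))
    (x : ℕ → Pt I) (y : Pt I) (hx : Tendsto x atTop (@nhds _ (top rk sel) y)) :
    ∀ᶠ j in atTop, x j = y := by
  classical
  rw [tendsto_iff] at hx
  by_contra hcon
  rw [Filter.not_eventually] at hcon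
  obtain ⟨ψ, hψ, hψne⟩ := Filter.extraction_of_frequently_atTop hcon
  -- first difference
  have hΔ : ∀ j, ∃ b, (∀ z < b, x (ψ j) z = y z) ∧ x (ψ j) b ≠ y b := by
    intro j
    have h2 : ∃ b, x (ψ j) b ≠ y b := by
      by_contra h3
      push Not at h3
      exact hψne j (funext h3)
    obtain ⟨b, hb, hmin⟩ := (wellFounded_lt (α := I)).has_min {z | x (ψ j) z ≠ y z} h2
    refine ⟨b, ?_, hb⟩
    intro z hz
    by_contra hne2
    exact hmin z hne2 hz
  choose β hβ1 hβ2 using hΔ
  have hN : ∀ b, ∀ᶠ j in atTop, (x (ψ j) ∈ N rk sel b y ↔ y b = true) := by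
    intro b
    have h1 := hψ.tendsto_atTop.eventually (hx b y)
    filter_upwards [h1] with j hj
    rw [hj, mem_N_agree rk sel (fun x _ => rfl)]
  have hin : ∀ b, ∀ᶠ j in atTop, InN rk sel y b (β j) := by
    intro b
    filter_upwards [hN b] with j hj
    constructor
    · intro h1
      have h2 : ∀ z < b, x (ψ j) z = y z := fun z hz => hβ1 j z (h1 ▸ hz)
      rw [mem_N_agree rk sel h2] at hj
      apply hβ2 j
      rw [h1]
      cases h3 : x (ψ j) b <;> cases h4 : y b <;> simp_all
    · intro h1
      rw [mem_N_delta rk sel h1 (hβ1 j) (hβ2 j)] at hj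
      cases h3 : G rk sel b y (β j) <;> cases h4 : y b <;> simp_all
  have hr : ∀ a, (∀ j, β j < a) → Tendsto (fun j => R rk sel a y (β j)) atTop atTop := by
    intro a ha
    rw [tendsto_atTop]
    intro n
    -- the finitely many levels of rank < n
    have hfin : {b | b < a ∧ rk a b < n}.Finite := by
      apply Set.Finite.of_finite_image (f := rk a)
      · apply (Set.finite_Iio n).subset
        rintro m ⟨b, hb, rfl⟩
        exact hb.2
      · exact (hrk a).mono (fun b hb => hb.1)
    have hall : ∀ᶠ j in atTop, ∀ b ∈ hfin.toFinset, InN rk sel y b (β j) := by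
      rw [Filter.eventually_all_finset]
      exact fun b _ => hin b
    filter_upwards [hall] with j hj
    have hne : {n | ∃ b, b < a ∧ rk a b = n ∧ ¬ InN rk sel y b (β j)}.Nonempty :=
      ⟨rk a (β j), β j, ha j, rfl, fun h => h.1 rfl⟩
    have hmem := Nat.sInf_mem hne
    by_contra hlt
    push Not at hlt
    obtain ⟨b, hb, hbn, hnot⟩ := hmem
    apply hnot
    apply hj
    rw [Set.Finite.mem_toFinset]
    refine ⟨hb, ?_⟩
    rw [hbn]
    exact hlt
  obtain ⟨a, ha, hf1, hf2⟩ := hsel β y hr
  have hG : ∀ j, x (ψ j) ∈ N rk sel a y ↔ R rk sel a y (β j) ∈ sel a (R rk sel a y) := by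
    intro j
    rw [mem_N_delta rk sel (ha j) (hβ1 j) (hβ2 j), G_eq, decide_eq_true_iff]
  by_cases hya : y a = true
  · have h1 := hN a
    obtain ⟨j, hj1, hj2⟩ := (hf2.and_eventually h1).exists
    exact hj1 ((hG j).1 (hj2.2 hya))
  · have h1 := hN a
    obtain ⟨j, hj1, hj2⟩ := (hf1.and_eventually h1).exists
    exact hya (hj2.1 ((hG j).2 hj1))

end Space

end Pool.Agent.WRN
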