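import Mathlib
set_option autoImplicit false

/-!
The tree recursion behind the space: for every node `(a, f)` (a function `f` restricted to the initial
segment below `a`) a function `G a f : I → Bool`, relevant below `a`.
-/

namespace Pool.Agent.WRN

/-- The points of the space: all functions `I → Bool`, without a default topology. -/
def Pt (I : Type) : Type := I → Bool

section Recursion

variable {I : Type} [LinearOrder I] [WellFoundedLT I]
variable (rk : I → I → ℕ) (sel : I → (I → ℕ) → Set ℕ)

open Classical in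
/-- The recursion step. -/
noncomputable def Gstep (a : I) (rec : (b : I) → b < a → Pt I → I → Bool)
    (f : Pt I) (x : I) : Bool :=
  decide ((sInf {n | ∃ b, ∃ h : b < a, rk a b = n ∧ ¬ (x ≠ b ∧ (x < b → rec b h f x = f b))}) ∈
    sel a (fun z => sInf {n | ∃ b, ∃ h : b < a, rk a b = n ∧
      ¬ (z ≠ b ∧ (z < b → rec b h f z = f b))}))

/-- The functions `G a f`. -/
noncomputable def G : I → Pt I → I → Bool :=
  (wellFounded_lt (α := I)).fix (Gstep rk sel)

/-- `x` belongs to the neighbourhood of the node `f` given by the splitting at level `b`. -/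
def InN (f : Pt I) (b x : I) : Prop := x ≠ b ∧ (x < b → G rk sel b f x = f b)

/-- The rank function of the node `(a, f)`. -/
noncomputable def R (a : I) (f : Pt I) (x : I) : ℕ :=
  sInf {n | ∃ b, b < a ∧ rk a b = n ∧ ¬ InN rk sel f b x}

open Classical in
lemma G_eq (a : I) (f : Pt I) (x : I) :
    G rk sel a f x = decide (R rk sel a f x ∈ sel a (R rk sel a f)) := by
  have h := WellFounded.fix_eq (wellFounded_lt (α := I)) (Gstep rk sel) a
  have h2 : G rk sel a f x = Gstep rk sel a (fun b _ => G rk sel b) f x := by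
    unfold G
    rw [h]
  rw [h2]
  have h3 : (R rk sel a f) = (fun z => sInf {n | ∃ b, ∃ _ : b < a, rk a b = n ∧
      ¬ (z ≠ b ∧ (z < b → G rk sel b f z = f b))}) := by
    funext z
    unfold R InN
    congr 1
    ext n
    simp only [Set.mem_ofPred_eq, exists_prop]
  have h4 : R rk sel a f x = sInf {n | ∃ b, ∃ _ : b < a, rk a b = n ∧
      ¬ (x ≠ b ∧ (x < b → G rk sel b f x = f b))} := by
    rw [h3]
  unfold Gstep
  rw [← h4, ← h3]

lemma G_congr (a : I) : ∀ f f' : Pt I, (∀ x < a, f x = f' x) → G rk sel a f = G rk sel a f' := by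
  induction a using WellFoundedLT.induction with
  | ind a ih =>
    intro f f' hff
    have hR : R rk sel a f = R rk sel a f' := by
      funext z
      unfold R
      congr 1
      ext n
      simp only [Set.mem_ofPred_eq]
      constructor
      · rintro ⟨b, hb, h1, h2⟩
        refine ⟨b, hb, h1, ?_⟩
        intro h3
        apply h2
        refine ⟨h3.1, fun hz => ?_⟩
        rw [ih b hb f f' (fun x hx => hff x (hx.trans hb)), hff b hb]
        exact h3.2 hz
      · rintro ⟨b, hb, h1, h2⟩
        refine ⟨b, hb, h1, ?_⟩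
        intro h3
        apply h2
        refine ⟨h3.1, fun hz => ?_⟩
        rw [← ih b hb f f' (fun x hx => hff x (hx.trans hb)), ← hff b hb]
        exact h3.2 hz
    funext x
    rw [G_eq, G_eq, hR]

/-- The hypothesis in the continuity condition. -/
def Hyp (f : Pt I) (β β₁ : I) (B : Finset I) : Prop :=
  β₁ ∉ B ∧ ∀ b ∈ B, β₁ < b → G rk sel b f β₁ = (if b = β then !f β else f b)

lemma Hyp.mono {f : Pt I} {β β₁ : I} {B B' : Finset I} (h : Hyp rk sel f β β₁ B')
    (hBB : B ⊆ B') : Hyp rk sel f β β₁ B :=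
  ⟨fun h1 => h.1 (hBB h1), fun b hb hlt => h.2 b (hBB hb) hlt⟩

/-- The continuity condition. -/
theorem cont (hrk : ∀ a, Set.InjOn (rk a) (Set.Iio a)) (a : I) :
    ∀ (f : Pt I) (β : I), β < a → ∃ B : Finset I, β ∈ B ∧ (∀ b ∈ B, b ≤ β) ∧
      ∀ β₁ < β, Hyp rk sel f β β₁ B → G rk sel a f β₁ = G rk sel a f β := by
  classical
  induction a using WellFoundedLT.induction with
  | ind a ih =>
    intro f β hβ
    have key : ∀ b, b < a → ∃ B : Finset I, (∀ x ∈ B, x ≤ β) ∧
        ∀ β₁ < β, Hyp rk sel f β β₁ B → (InN rk sel f b β₁ ↔ InN rk sel f b β) := by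
      intro b hb
      rcases lt_trichotomy b β with h | h | h
      · refine ⟨{b}, ?_, ?_⟩
        · intro x hx
          rw [Finset.mem_singleton] at hx
          exact hx ▸ h.le
        · intro β₁ h1 hyp
          have h2 : β₁ ≠ b := fun h3 => hyp.1 (Finset.mem_singleton.2 h3)
          have h3 := hyp.2 b (Finset.mem_singleton_self b)
          rw [if_neg h.ne] at h3
          exact ⟨fun _ => ⟨h.ne', fun h4 => absurd h4 (not_lt.2 h.le)⟩, fun _ => ⟨h2, h3⟩⟩
      · refine ⟨{b}, ?_, ?_⟩
        · intro x hx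
          rw [Finset.mem_singleton] at hx
          exact hx ▸ h.le
        · intro β₁ h1 hyp
          have h3 := hyp.2 b (Finset.mem_singleton_self b) (h ▸ h1)
          rw [if_pos h] at h3
          constructor
          · intro h4
            have h5 := h4.2 (h ▸ h1)
            rw [h3, h] at h5
            cases hh : f β <;> rw [hh] at h5 <;> simp at h5
          · intro h4
            exact absurd h.symm h4.1
      · obtain ⟨B, -, hB2, hB3⟩ := ih b hb f β h
        refine ⟨B, hB2, ?_⟩
        intro β₁ h1 hyp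
        have h2 := hB3 β₁ h1 hyp
        have h3 : β₁ < b := h1.trans h
        constructor
        · intro h4
          exact ⟨h.ne, fun _ => by rw [← h2]; exact h4.2 h3⟩
        · intro h4
          exact ⟨h3.ne, fun _ => by rw [h2]; exact h4.2 h⟩
    choose! Bf hBf1 hBf2 using key
    set A : I → Set ℕ := fun x => {n | ∃ b, b < a ∧ rk a b = n ∧ ¬ InN rk sel f b x} with hA
    have hRA : ∀ x, R rk sel a f x = sInf (A x) := fun x => rfl
    set n₀ := sInf (A β) with hn₀
    have hne : (A β).Nonempty := ⟨rk a β, β, hβ, rfl, fun h => h.1 rfl⟩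
    have hn₀mem : n₀ ∈ A β := Nat.sInf_mem hne
    have hfin : {b | b < a ∧ rk a b ≤ n₀}.Finite := by
      apply Set.Finite.of_finite_image (f := rk a)
      · apply (Set.finite_Iic n₀).subset
        rintro n ⟨b, hb, rfl⟩
        exact hb.2
      · exact (hrk a).mono (fun b hb => hb.1)
    refine ⟨insert β (hfin.toFinset.biUnion Bf), Finset.mem_insert_self _ _, ?_, ?_⟩
    · intro b hb
      rw [Finset.mem_insert, Finset.mem_biUnion] at hb
      rcases hb with hb | ⟨c, hc, hb⟩
      · exact hb.le
      · rw [Set.Finite.mem_toFinset] at hc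
        exact hBf1 c hc.1 b hb
    · intro β₁ h1 hyp
      have hiff : ∀ b, b < a → rk a b ≤ n₀ → (InN rk sel f b β₁ ↔ InN rk sel f b β) := by
        intro b hb hbn
        apply hBf2 b hb β₁ h1
        apply hyp.mono
        intro x hx
        apply Finset.mem_insert_of_mem
        rw [Finset.mem_biUnion]
        exact ⟨b, (Set.Finite.mem_toFinset _).2 ⟨hb, hbn⟩, hx⟩
      have hmem : n₀ ∈ A β₁ := by
        obtain ⟨b, hb, hbn, hnot⟩ := hn₀mem
        exact ⟨b, hb, hbn, fun h => hnot ((hiff b hb hbn.le).1 h)⟩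
      have hR1 : R rk sel a f β₁ = n₀ := by
        rw [hRA]
        apply le_antisymm
        · exact Nat.sInf_le hmem
        · by_contra hlt
          push Not at hlt
          have hm := Nat.sInf_mem ⟨n₀, hmem⟩
          obtain ⟨b, hb, hbn, hnot⟩ := hm
          have h5 : rk a b ≤ n₀ := hbn ▸ hlt.le
          have h6 : rk a b ∈ A β := ⟨b, hb, rfl, fun h => hnot ((hiff b hb h5).2 h)⟩
          have h7 := Nat.sInf_le h6
          omega
      have hR2 : R rk sel a f β = n₀ := hRA β
      rw [G_eq, G_eq, hR1, hR2]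

end Recursion

section Sets

variable {I : Type} [LinearOrder I] [WellFoundedLT I]
variable (rk : I → I → ℕ) (sel : I → (I → ℕ) → Set ℕ)

/-- The clopen sets of the space. -/
def N (a : I) (f : Pt I) : Set (Pt I) :=
  {y | ((∀ x < a, y x = f x) ∧ y a = true) ∨
    ∃ b < a, (∀ x < b, y x = f x) ∧ y b ≠ f b ∧ G rk sel a f b = true}

lemma dich (y f : Pt I) (a : I) :
    (∀ x < a, y x = f x) ∨ ∃ b < a, (∀ x < b, y x = f x) ∧ y b ≠ f b := by
  by_cases h : ∀ x < a, y x = f x
  · exact Or.inl h
  · right
    push Not at h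
    obtain ⟨b, hb, hmin⟩ := (wellFounded_lt (α := I)).has_min {x | x < a ∧ y x ≠ f x} h
    refine ⟨b, hb.1, ?_, hb.2⟩
    intro x hx
    by_contra hne
    exact hmin x ⟨hx.trans hb.1, hne⟩ hx

lemma mem_N_agree {a : I} {f y : Pt I} (h : ∀ x < a, y x = f x) :
    y ∈ N rk sel a f ↔ y a = true := by
  constructor
  · rintro (h1 | ⟨b, hb, h1, h2, -⟩)
    · exact h1.2
    · exact absurd (h b hb) h2
  · intro h1
    exact Or.inl ⟨h, h1⟩

lemma mem_N_delta {a b : I} {f y : Pt I} (hb : b < a) (h : ∀ x < b, y x = f x) (hne : y b ≠ f b) :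
    y ∈ N rk sel a f ↔ G rk sel a f b = true := by
  constructor
  · rintro (h1 | ⟨c, hc, h1, h2, h3⟩)
    · exact absurd (h1.1 b hb) hne
    · rcases lt_trichotomy b c with h4 | h4 | h4
      · exact absurd (h1 b h4) hne
      · rw [h4]; exact h3
      · exact absurd (h c h4) h2
  · intro h1
    exact Or.inr ⟨b, hb, h, hne, h1⟩

lemma N_congr {a : I} {f f' : Pt I} (h : ∀ x < a, f x = f' x) :
    N rk sel a f = N rk sel a f' := by
  ext y
  rcases dich y f a with h1 | ⟨b, hb, h1, h2⟩
  · rw [mem_N_agree rk sel h1, mem_N_agree rk sel (fun x hx => (h1 x hx).trans (h x hx))]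
  · rw [mem_N_delta rk sel hb h1 h2, mem_N_delta rk sel hb
      (fun x hx => (h1 x hx).trans (h x (hx.trans hb))) (fun h3 => h2 (h3.trans (h b hb).symm)),
      G_congr rk sel a f f' h]

/-- Points which agree up to and including `b`, where `b` separates them from the node `(a, f)` or
`a ≤ b`, have the same membership in `N a f`. -/
lemma N_same {a b : I} {f y y' : Pt I} (h : ∀ x ≤ b, y x = y' x)
    (hd : a ≤ b ∨ ∃ x ≤ b, y x ≠ f x) : y ∈ N rk sel a f ↔ y' ∈ N rk sel a f := by
  rcases dich y f a with h1 | ⟨c, hc, h1, h2⟩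
  · rcases hd with hab | ⟨x, hx, hne⟩
    · rw [mem_N_agree rk sel h1, mem_N_agree rk sel
        (fun z hz => (h z (hz.le.trans hab)).symm.trans (h1 z hz)), h a hab]
    · have hax : a ≤ x := by
        by_contra hlt
        exact hne (h1 x (not_le.1 hlt))
      have hab := hax.trans hx
      rw [mem_N_agree rk sel h1, mem_N_agree rk sel
        (fun z hz => (h z (hz.le.trans hab)).symm.trans (h1 z hz)), h a hab]
  · have hcb : c ≤ b := by
      rcases hd with hab | ⟨x, hx, hne⟩
      · exact hc.le.trans hab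
      · by_contra hlt
        exact hne (h1 x (lt_of_le_of_lt hx (not_le.1 hlt)))
    rw [mem_N_delta rk sel hc h1 h2, mem_N_delta rk sel hc
      (fun z hz => (h z (hz.le.trans hcb)).symm.trans (h1 z hz))
      (fun h3 => h2 ((h c hcb).trans h3))]

end Sets

end Pool.Agent.WRN
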