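import Pool.Agent.WRN.Space
import Pool.Agent.WRN.Helly
set_option autoImplicit false
open Filter Topology

/-!
The family of the indicator functions of the sets `N a f` is tame: every sequence in its absolutely
convex hull has a pointwise convergent subsequence.
-/

namespace Pool.Agent.WRN

section TreeTame

variable {I : Type} [LinearOrder I] [WellFoundedLT I]
variable (rk : I → I → ℕ) (sel : I → (I → ℕ) → Set ℕ)

open Classical in
/-- The indicator function of `N a f`. -/
noncomputable def ind (t : I × Pt I) (y : Pt I) : ℝ := if y ∈ N rk sel t.1 t.2 then 1 else 0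

lemma ind_congr {t : I × Pt I} {y y' : Pt I} (h : y ∈ N rk sel t.1 t.2 ↔ y' ∈ N rk sel t.1 t.2) :
    ind rk sel t y = ind rk sel t y' := by
  unfold ind
  by_cases h1 : y ∈ N rk sel t.1 t.2
  · rw [if_pos h1, if_pos (h.1 h1)]
  · rw [if_neg h1, if_neg (fun h2 => h1 (h.2 h2))]

lemma abs_ind_le (t : I × Pt I) (y : Pt I) : |ind rk sel t y| ≤ 1 := by
  unfold ind
  split_ifs <;> simp

/-- first difference of two different points. -/
lemma exists_delta {y y' : Pt I} (h : y ≠ y') : ∃ b, (∀ x < b, y x = y' x) ∧ y b ≠ y' b := by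
  have h2 : ∃ b, y b ≠ y' b := by
    by_contra h3
    push Not at h3
    exact h (funext h3)
  obtain ⟨b, hb, hmin⟩ := (wellFounded_lt (α := I)).has_min {z | y z ≠ y' z} h2
  refine ⟨b, ?_, hb⟩
  intro z hz
  by_contra hne2
  exact hmin z hne2 hz

theorem tree_tame (hcount : ∀ a : I, (Set.Iic a).Countable)
    (c : ℕ → (I × Pt I →₀ ℝ)) (hc : ∀ n, ((c n).sum fun _ r => |r|) ≤ 1) :
    ∃ φ : ℕ → ℕ, StrictMono φ ∧
      ∀ y, ∃ l, Tendsto (fun n => (c (φ n)).sum fun t r => r * ind rk sel t y) atTop (𝓝 l) := by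
  classical
  set S : Set (I × Pt I) := ⋃ n, ((c n).support : Set (I × Pt I)) with hSdef
  have hScount : S.Countable := Set.countable_iUnion fun n => (Finset.finite_toSet _).countable
  set P : Set ((I × Pt I) × I × Bool) := {p | p.1 ∈ S ∧ p.2.1 ≤ p.1.1} with hP
  have hPcount : P.Countable := by
    have h1 : (⋃ t ∈ S, (fun q : I × Bool => (t, q)) '' (Set.Iic t.1 ×ˢ Set.univ)).Countable :=
      hScount.biUnion fun t _ => ((hcount t.1).prod Set.countable_univ).image _
    refine h1.mono ?_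
    rintro ⟨t, b, i⟩ ⟨h2, h3⟩
    simp only [Set.mem_iUnion, Set.mem_image]
    exact ⟨t, h2, (b, i), ⟨h3, Set.mem_univ _⟩, rfl⟩
  haveI : Countable P := hPcount.to_subtype
  refine helly (J := P) (ind rk sel) (abs_ind_le rk sel) c hc S
    (fun n t ht => Set.mem_iUnion.2 ⟨n, ht⟩)
    (fun p => {z | (∀ x < p.1.2.1, z x = p.1.1.2 x) ∧ z p.1.2.1 = p.1.2.2})
    (fun p => {t | p.1.2.1 < t.1 ∧ (∀ x < p.1.2.1, t.2 x = p.1.1.2 x) ∧ t.2 p.1.2.1 = p.1.2.2})
    ?_ ?_ ?_
  · rintro ⟨⟨s, b, i⟩, hp⟩ y ⟨hy1, hy2⟩ y' ⟨hy1', hy2'⟩ t _ htD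
    simp only at hy1 hy2 hy1' hy2'
    apply ind_congr
    apply N_same rk sel (b := b)
    · intro x hx
      rcases hx.lt_or_eq with h | h
      · exact (hy1 x h).trans (hy1' x h).symm
      · rw [h, hy2, hy2']
    · by_cases hb : t.1 ≤ b
      · exact Or.inl hb
      · right
        by_contra hcon
        push Not at hcon
        apply htD
        refine ⟨not_le.1 hb, ?_, ?_⟩
        · intro x hx
          exact (hcon x (le_of_lt hx)).symm.trans (hy1 x hx)
        · exact (hcon b le_rfl).symm.trans hy2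
  · have key : ∀ (y : Pt I) (j j' : P),
        ((∀ x < j.1.2.1, y x = j.1.1.2 x) ∧ y j.1.2.1 = j.1.2.2) →
        ((∀ x < j'.1.2.1, y x = j'.1.1.2 x) ∧ y j'.1.2.1 = j'.1.2.2) → j.1.2.1 ≤ j'.1.2.1 →
        {t : I × Pt I | j'.1.2.1 < t.1 ∧ (∀ x < j'.1.2.1, t.2 x = j'.1.1.2 x) ∧ t.2 j'.1.2.1 = j'.1.2.2} ⊆
        {t : I × Pt I | j.1.2.1 < t.1 ∧ (∀ x < j.1.2.1, t.2 x = j.1.1.2 x) ∧ t.2 j.1.2.1 = j.1.2.2} := by
      rintro y j j' ⟨h1, h2⟩ ⟨h1', h2'⟩ hle t ⟨ht1, ht2, ht3⟩
      have hagree : ∀ x ≤ j'.1.2.1, t.2 x = y x := by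
        intro x hx
        rcases hx.lt_or_eq with h | h
        · exact (ht2 x h).trans (h1' x h).symm
        · rw [h, ht3, h2']
      refine ⟨lt_of_le_of_lt hle ht1, ?_, ?_⟩
      · intro x hx
        exact (hagree x (hx.le.trans hle)).trans (h1 x hx)
      · exact (hagree _ hle).trans h2
    intro y j j' hj hj'
    rcases le_total j.1.2.1 j'.1.2.1 with hle | hle
    · exact Or.inr (key y j j' hj hj' hle)
    · exact Or.inl (key y j' j hj' hj hle)
  · intro y y'
    by_cases hall : ∀ t ∈ S, ind rk sel t y = ind rk sel t y'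
    · exact Or.inl hall
    · right
      push Not at hall
      obtain ⟨t, htS, htne⟩ := hall
      have hne : y ≠ y' := fun h => htne (by rw [h])
      obtain ⟨δ, hδ1, hδ2⟩ := exists_delta hne
      -- if y and y' agree up to b and b separates, contradiction
      have hno : ∀ b, (∀ x ≤ b, y x = y' x) → ¬ (t.1 ≤ b ∨ ∃ x ≤ b, y x ≠ t.2 x) := by
        intro b hb hd
        exact htne (ind_congr rk sel (N_same rk sel hb hd))
      have hagree : ∀ x < δ, y x = t.2 x := by
        intro x hx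
        by_contra hcon
        exact hno x (fun z hz => hδ1 z (lt_of_le_of_lt hz hx)) (Or.inr ⟨x, le_rfl, hcon⟩)
      have hδt : δ ≤ t.1 := by
        by_contra hcon
        push Not at hcon
        exact hno t.1 (fun z hz => hδ1 z (lt_of_le_of_lt hz hcon)) (Or.inl le_rfl)
      refine ⟨⟨(t, δ, y δ), htS, hδt⟩, ⟨(t, δ, y' δ), htS, hδt⟩, ⟨hagree, rfl⟩,
        ⟨fun x hx => (hδ1 x hx).symm.trans (hagree x hx), rfl⟩, ?_⟩
      rw [Set.disjoint_left]
      rintro s ⟨-, -, h1⟩ ⟨-, -, h2⟩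
      simp only at h1 h2
      exact hδ2 (h1.symm.trans h2)

end TreeTame

end Pool.Agent.WRN
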